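import Pool.Agent.Lib.MFib.T.Defs
import Pool.Agent.Lib.MP_2c4b12_ag.H66Log

/-!
# MP_7a61d8_gt, module T.Conn (size 240): the Milnor fibre of an arrangement is path connected

PROOF. `n = card ι > 0`, `Q(z) = ∏ i, α i z` (`eval z (QQ α)`), `Q(c z) = c ^ n Q(z)`. Log paths: a continuous `u : I → ℂ` without zeros is `exp L`, `L` continuous (`exists_log_path` in `Lib/MP_2c4b12_ag/H66Log.lean`).
(1) For `z, z' ∈ F` there is `ξ` with `ξ ^ n = 1` and a path in `F` from `z` to `ξ z'`: `P(t) = Q(z + t (z' - z))` is a polynomial in `t` with `P(0) = P(1) = 1`, so it has finitely many zeros; let `t(s)`, `s ∈ [0,1]`, be a path from `0` to `1` avoiding them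
(the complement of a finite set in `ℂ` is path connected). `P(t(s)) = exp L(s)`, and we may take `L(0) = 0`. `Z(s) = exp (-L(s) / n) (z + t(s) (z' - z))` is in `F`, `Z(0) = z`, `Z(1) = exp (-L(1) / n) z'`.
(2) There is `z⋆ ∈ F` and a path in `F` from `z⋆` to `exp (-2 π i / n) z⋆`: fix `i₀`. There is `q₀ ∈ ker α i₀` with `α k q₀ ≠ 0` for `k ≠ i₀` (the proper subspaces `ker α k ⊓ ker α i₀` of `ker α i₀`, proper because the kernels are distinct hyperplanes, do not cover it: `Subspace.biUnion_ne_univ_of_top_notMem`), `v` with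
`α i₀ v = 1`. `g(t) = ∏ k ≠ i₀, α k (q₀ + t v)`, `g(0) ≠ 0`; `ε > 0` with `‖g(t) / g(0) - 1‖ < 1` for `‖t‖ ≤ ε`. `t(s) = ε exp (2 π i s)`, `Q(q₀ + t(s) v) = t(s) g(t(s)) = exp L(s)` with `L(s) = log ε + 2 π i s + log g(0) + log (g(t(s)) / g(0))` (principal logarithm, continuous on the disc around `1`),
`L(1) - L(0) = 2 π i`. `Z(s) = exp (-L(s) / n) (q₀ + t(s) v)`, `z⋆ = Z(0)`.
(3) Multiplication by `ξ`, `ξ ^ n = 1`, maps `F` to `F`, so `z⋆` is joined to `exp (-2 π i / n) ^ j z⋆` for all `j`, i.e. to `ξ z⋆` for all `ξ` with `ξ ^ n = 1` (`IsPrimitiveRoot`, `Complex.isPrimitiveRoot_exp`). For `z ∈ F` (1) with `z' = z⋆` joins `z` to `ξ z⋆`, hence to `z⋆`.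
-/

set_option autoImplicit false

namespace MFib

open MvPolynomial

theorem eval_QQ {ι : Type} [Fintype ι] {l : ℕ} (α : ι → Module.Dual ℂ (Fin l → ℂ))
    (z : Fin l → ℂ) : eval z (QQ α) = ∏ i, α i z := by
  unfold QQ
  rw [map_prod]
  refine Finset.prod_congr rfl fun i _ => ?_
  unfold lin
  rw [map_sum]
  rw [LinearMap.pi_apply_eq_sum_univ (α i) z]
  refine Finset.sum_congr rfl fun j _ => ?_
  have h : (fun j' => if j = j' then (1 : ℂ) else 0) = Pi.single j 1 := by
    funext j'
    by_cases hj : j = j'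
    · subst hj; simp
    · rw [if_neg hj, Pi.single_eq_of_ne (Ne.symm hj)]
  simp only [map_mul, eval_C, eval_X, smul_eq_mul]
  rw [mul_comm]
  congr 2
  exact h.symm

/-- the product of the forms -/
private noncomputable def qf {ι : Type} [Fintype ι] {l : ℕ} (α : ι → Module.Dual ℂ (Fin l → ℂ))
    (z : Fin l → ℂ) : ℂ := ∏ i, α i z

private theorem qf_smul {ι : Type} [Fintype ι] {l : ℕ} (α : ι → Module.Dual ℂ (Fin l → ℂ))
    (c : ℂ) (z : Fin l → ℂ) : qf α (c • z) = c ^ Fintype.card ι * qf α z := by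
  unfold qf
  simp only [map_smul, smul_eq_mul, Finset.prod_mul_distrib, Finset.prod_const, Finset.card_univ]

private theorem joined_smul {ι : Type} [Fintype ι] {l : ℕ} (α : ι → Module.Dual ℂ (Fin l → ℂ))
    {a b : Fin l → ℂ} (h : JoinedIn {z | qf α z = 1} a b) {ξ : ℂ} (hξ : ξ ^ Fintype.card ι = 1) :
    JoinedIn {z | qf α z = 1} (ξ • a) (ξ • b) := by
  obtain ⟨γ, hγ⟩ := h
  refine ⟨γ.map (f := fun z => ξ • z) (by fun_prop), fun t => ?_⟩
  have h1 : (γ.map (f := fun z => ξ • z) (by fun_prop)) t = ξ • γ t := rfl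
  rw [h1]
  show qf α _ = 1
  rw [qf_smul, hξ, one_mul]
  exact hγ t

private theorem step_one {ι : Type} [Fintype ι] [Nonempty ι] {l : ℕ}
    (α : ι → Module.Dual ℂ (Fin l → ℂ)) {z z' : Fin l → ℂ} (hz : qf α z = 1) (hz' : qf α z' = 1) :
    ∃ ξ : ℂ, ξ ^ Fintype.card ι = 1 ∧ JoinedIn {z | qf α z = 1} z (ξ • z') := by
  have hn : (Fintype.card ι : ℂ) ≠ 0 := by
    exact_mod_cast Fintype.card_ne_zero
  set P : Polynomial ℂ := ∏ i, (Polynomial.C (α i z) + Polynomial.X * Polynomial.C (α i (z' - z)))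
    with hP
  have hPe : ∀ t : ℂ, P.eval t = qf α (z + t • (z' - z)) := by
    intro t
    rw [hP, Polynomial.eval_prod]
    unfold qf
    refine Finset.prod_congr rfl fun i _ => ?_
    simp
  have h0 : P.eval 0 = 1 := by
    rw [hPe]; simp [hz]
  have h1 : P.eval 1 = 1 := by
    rw [hPe]; simp [hz']
  have hP0 : P ≠ 0 := by
    intro h
    rw [h] at h0
    simp at h0
  have hfin : {t : ℂ | P.eval t = 0}.Finite := by
    refine (P.rootSet_finite ℂ).subset ?_
    intro t ht
    rw [Polynomial.mem_rootSet]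
    exact ⟨hP0, by simpa using ht⟩
  have hpc : IsPathConnected ({t : ℂ | P.eval t = 0}ᶜ) :=
    hfin.countable.isPathConnected_compl_of_one_lt_rank (by
      rw [Complex.rank_real_complex]; exact Nat.one_lt_ofNat)
  obtain ⟨γ, hγ⟩ := hpc.joinedIn 0 (by simp [h0]) 1 (by simp [h1])
  obtain ⟨L, hL⟩ := Pool.Agent.Gal2c4b12.exists_log_path
    ⟨fun s => P.eval (γ s), by fun_prop⟩ (fun t => by simpa using hγ t)
  simp only [ContinuousMap.coe_mk] at hL
  have hL0 : Complex.exp (L 0) = 1 := by rw [hL, γ.source, h0]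
  have hL1 : Complex.exp (L 1) = 1 := by rw [hL, γ.target, h1]
  have hpow : ∀ s, Complex.exp (-(L s - L 0) / Fintype.card ι) ^ Fintype.card ι
      = (P.eval (γ s))⁻¹ := by
    intro s
    rw [← Complex.exp_nat_mul, mul_div_cancel₀ _ hn, Complex.exp_neg, Complex.exp_sub, hL0,
      div_one, hL]
  refine ⟨Complex.exp (-(L 1 - L 0) / Fintype.card ι), ?_, ?_⟩
  · rw [hpow, γ.target, h1, inv_one]
  · refine ⟨⟨⟨fun s => Complex.exp (-(L s - L 0) / Fintype.card ι) • (z + γ s • (z' - z)), ?_⟩,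
      ?_, ?_⟩, ?_⟩
    · fun_prop
    · simp
    · simp
    · intro s
      show qf α _ = 1
      simp only [Path.coe_mk', ContinuousMap.coe_mk]
      rw [qf_smul, hpow, ← hPe]
      refine inv_mul_cancel₀ ?_
      simpa using hγ s

private theorem step_two {ι : Type} [Fintype ι] [Nonempty ι] {l : ℕ}
    (α : ι → Module.Dual ℂ (Fin l → ℂ)) (h0 : ∀ i, α i ≠ 0)
    (hα : ∀ i j, i ≠ j → LinearMap.ker (α i) ≠ LinearMap.ker (α j)) :
    ∃ z : Fin l → ℂ, qf α z = 1 ∧ JoinedIn {z | qf α z = 1} z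
      (Complex.exp (-(2 * Real.pi * Complex.I / Fintype.card ι)) • z) := by
  classical
  have hn : (Fintype.card ι : ℂ) ≠ 0 := by
    exact_mod_cast Fintype.card_ne_zero
  obtain ⟨i₀⟩ := (inferInstance : Nonempty ι)
  obtain ⟨v, hv⟩ : ∃ v, α i₀ v = 1 := by
    obtain ⟨w, hw⟩ : ∃ w, α i₀ w ≠ 0 := by
      by_contra hcon
      push Not at hcon
      exact h0 i₀ (LinearMap.ext hcon)
    exact ⟨(α i₀ w)⁻¹ • w, by rw [map_smul, smul_eq_mul, inv_mul_cancel₀ hw]⟩
  -- the kernels do not cover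
  obtain ⟨q, hq0, hqk⟩ : ∃ q, α i₀ q = 0 ∧ ∀ k, k ≠ i₀ → α k q ≠ 0 := by
    let K := LinearMap.ker (α i₀)
    let s : Finset (Subspace ℂ K) := (Finset.univ.filter (fun k => k ≠ i₀)).image
      (fun k => (LinearMap.ker (α k)).comap K.subtype)
    have htop : (⊤ : Subspace ℂ K) ∉ s := by
      intro hmem
      simp only [s, Finset.mem_image, Finset.mem_filter, Finset.mem_univ, true_and] at hmem
      obtain ⟨k, hk, hke⟩ := hmem
      have hle : ∀ x, α i₀ x = 0 → α k x = 0 := by
        intro x hx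
        have : (⟨x, hx⟩ : K) ∈ (LinearMap.ker (α k)).comap K.subtype := by
          rw [hke]; exact Submodule.mem_top
        simpa using this
      have hx : ∀ x, α k x = α i₀ x * α k v := by
        intro x
        have h1 : α k (x - α i₀ x • v) = 0 := hle _ (by simp [hv])
        rw [map_sub, map_smul, smul_eq_mul, sub_eq_zero] at h1
        exact h1
      have hkv : α k v ≠ 0 := by
        intro h
        refine h0 k (LinearMap.ext fun x => ?_)
        rw [hx, h, mul_zero, LinearMap.zero_apply]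
      apply hα k i₀ hk
      ext x
      rw [LinearMap.mem_ker, LinearMap.mem_ker, hx]
      constructor
      · intro h
        rcases mul_eq_zero.1 h with h | h
        · exact h
        · exact absurd h hkv
      · intro h
        rw [h, zero_mul]
    have := Subspace.biUnion_ne_univ_of_top_notMem htop
    obtain ⟨q, hq⟩ := (Set.ne_univ_iff_exists_notMem _).1 this
    refine ⟨q, q.2, fun k hk h => hq ?_⟩
    simp only [Set.mem_iUnion]
    refine ⟨(LinearMap.ker (α k)).comap K.subtype, ?_, ?_⟩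
    · simp only [s, Finset.mem_image, Finset.mem_filter, Finset.mem_univ, true_and]
      exact ⟨k, hk, rfl⟩
    · simpa using h
  let g : ℂ → ℂ := fun t => ∏ k ∈ Finset.univ.erase i₀, α k (q + t • v)
  have hgc : Continuous g := by
    refine continuous_finsetProd _ fun k _ => ?_
    exact (LinearMap.continuous_of_finiteDimensional (α k)).comp (by fun_prop)
  have hg0 : g 0 ≠ 0 := by
    show ∏ k ∈ Finset.univ.erase i₀, α k (q + (0 : ℂ) • v) ≠ 0
    refine Finset.prod_ne_zero_iff.2 fun k hk => ?_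
    rw [zero_smul, add_zero]
    exact hqk k (Finset.ne_of_mem_erase hk)
  have hqf : ∀ t : ℂ, qf α (q + t • v) = t * g t := by
    intro t
    unfold qf
    rw [← Finset.mul_prod_erase Finset.univ _ (Finset.mem_univ i₀)]
    show α i₀ (q + t • v) * g t = t * g t
    rw [map_add, map_smul, hq0, hv, smul_eq_mul, mul_one, zero_add]
  obtain ⟨ε, hε, hε'⟩ : ∃ ε > 0, ∀ t : ℂ, ‖t‖ ≤ ε → ‖g t / g 0 - 1‖ < 1 := by
    have hc : ContinuousAt (fun t => g t / g 0) 0 := (hgc.div_const _).continuousAt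
    rw [Metric.continuousAt_iff] at hc
    obtain ⟨δ, hδ, h⟩ := hc 1 one_pos
    refine ⟨δ / 2, half_pos hδ, fun t ht => ?_⟩
    have h1 := h (x := t) (by rw [dist_zero_right]; linarith)
    rw [div_self hg0, dist_eq_norm] at h1
    exact h1
  have hslit : ∀ t : ℂ, ‖t‖ ≤ ε → g t / g 0 ∈ Complex.slitPlane := by
    intro t ht
    have h1 := hε' t ht
    left
    have h2 := Complex.abs_re_le_norm (g t / g 0 - 1)
    have h3 := (abs_le.1 h2).1
    rw [Complex.sub_re, Complex.one_re] at h3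
    linarith
  let tt : unitInterval → ℂ := fun s => ε * Complex.exp (2 * Real.pi * Complex.I * (s : ℝ))
  have htt : ∀ s, ‖tt s‖ = ε := by
    intro s
    show ‖(ε : ℂ) * Complex.exp (2 * Real.pi * Complex.I * (s : ℝ))‖ = ε
    rw [norm_mul, Complex.norm_exp]
    have : (2 * (Real.pi : ℂ) * Complex.I * ((s : ℝ) : ℂ)).re = 0 := by
      simp
    rw [this, Real.exp_zero, mul_one]
    simp [abs_of_pos hε]
  have httc : Continuous tt := by
    show Continuous fun s : unitInterval =>
      (ε : ℂ) * Complex.exp (2 * Real.pi * Complex.I * ((s : ℝ) : ℂ))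
    fun_prop
  let L : unitInterval → ℂ := fun s => Complex.log ε + 2 * Real.pi * Complex.I * (s : ℝ)
    + Complex.log (g 0) + Complex.log (g (tt s) / g 0)
  have hLc : Continuous L := by
    have h1 : Continuous fun s => Complex.log (g (tt s) / g 0) := by
      refine Continuous.clog ((hgc.comp httc).div_const _) fun s => hslit _ (le_of_eq (htt s))
    have h2 : Continuous fun s : unitInterval =>
      Complex.log ε + 2 * Real.pi * Complex.I * ((s : ℝ) : ℂ) + Complex.log (g 0) := by fun_prop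
    exact h2.add h1
  have hεC : (ε : ℂ) ≠ 0 := by exact_mod_cast hε.ne'
  have hL : ∀ s, Complex.exp (L s) = qf α (q + tt s • v) := by
    intro s
    have hgs : g (tt s) / g 0 ≠ 0 := Complex.slitPlane_ne_zero (hslit _ (le_of_eq (htt s)))
    rw [hqf]
    show Complex.exp (Complex.log ε + 2 * Real.pi * Complex.I * ((s : ℝ) : ℂ)
      + Complex.log (g 0) + Complex.log (g (tt s) / g 0)) = tt s * g (tt s)
    rw [Complex.exp_add, Complex.exp_add, Complex.exp_add, Complex.exp_log hεC,
      Complex.exp_log hg0, Complex.exp_log hgs, mul_assoc _ (g 0), mul_div_cancel₀ _ hg0]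
  have hne : ∀ s, qf α (q + tt s • v) ≠ 0 := by
    intro s
    rw [← hL s]
    exact Complex.exp_ne_zero _
  let Z : unitInterval → Fin l → ℂ :=
    fun s => Complex.exp (-(L s) / Fintype.card ι) • (q + tt s • v)
  have hZc : Continuous Z := by
    show Continuous fun s => Complex.exp (-(L s) / Fintype.card ι) • (q + tt s • v)
    fun_prop
  have hZ1 : ∀ s, qf α (Z s) = 1 := by
    intro s
    show qf α (Complex.exp (-(L s) / Fintype.card ι) • (q + tt s • v)) = 1
    rw [qf_smul, ← Complex.exp_nat_mul, mul_div_cancel₀ _ hn, Complex.exp_neg, hL,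
      inv_mul_cancel₀ (hne s)]
  have ht01 : tt 1 = tt 0 := by
    show (ε : ℂ) * Complex.exp (2 * Real.pi * Complex.I * (((1 : unitInterval) : ℝ) : ℂ))
      = ε * Complex.exp (2 * Real.pi * Complex.I * (((0 : unitInterval) : ℝ) : ℂ))
    simp [Complex.exp_two_pi_mul_I]
  have hL01 : L 1 = L 0 + 2 * Real.pi * Complex.I := by
    show Complex.log ε + 2 * Real.pi * Complex.I * (((1 : unitInterval) : ℝ) : ℂ)
      + Complex.log (g 0) + Complex.log (g (tt 1) / g 0)
      = Complex.log ε + 2 * Real.pi * Complex.I * (((0 : unitInterval) : ℝ) : ℂ)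
      + Complex.log (g 0) + Complex.log (g (tt 0) / g 0) + 2 * Real.pi * Complex.I
    rw [ht01]
    simp
    ring
  refine ⟨Z 0, hZ1 0, ⟨⟨⟨Z, hZc⟩, rfl, ?_⟩, hZ1⟩⟩
  show Z 1 = _
  show Complex.exp (-(L 1) / Fintype.card ι) • (q + tt 1 • v)
    = Complex.exp (-(2 * Real.pi * Complex.I / Fintype.card ι)) •
      (Complex.exp (-(L 0) / Fintype.card ι) • (q + tt 0 • v))
  rw [ht01, hL01, smul_smul, ← Complex.exp_add]
  congr 2
  field_simp
  ring

theorem pathConnected_fib {ι : Type} [Fintype ι] [Nonempty ι] {l : ℕ}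
    (α : ι → Module.Dual ℂ (Fin l → ℂ)) (h0 : ∀ i, α i ≠ 0)
    (hα : ∀ i j, i ≠ j → LinearMap.ker (α i) ≠ LinearMap.ker (α j)) :
    PathConnectedSpace (Fib (QQ α)) := by
  have hF : {z : Fin l → ℂ | eval z (QQ α) = 1} = {z | qf α z = 1} := by
    ext z
    rw [Set.mem_ofPred_eq, Set.mem_ofPred_eq, eval_QQ]
    rfl
  have key : IsPathConnected {z : Fin l → ℂ | eval z (QQ α) = 1} := by
    rw [hF]
    obtain ⟨z, hz, hj⟩ := step_two α h0 hα
    set ω : ℂ := Complex.exp (-(2 * Real.pi * Complex.I / Fintype.card ι)) with hω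
    have hprim : IsPrimitiveRoot ω (Fintype.card ι) := by
      rw [hω, Complex.exp_neg]
      exact (Complex.isPrimitiveRoot_exp _ Fintype.card_ne_zero).inv
    have hpow : ∀ j : ℕ, JoinedIn {z | qf α z = 1} z (ω ^ j • z) := by
      intro j
      induction j with
      | zero => rw [pow_zero, one_smul]; exact JoinedIn.refl hz
      | succ j ih =>
        refine ih.trans ?_
        have h1 := joined_smul α hj (ξ := ω ^ j) (by
          rw [← pow_mul, mul_comm, pow_mul, hprim.pow_eq_one, one_pow])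
        rw [smul_smul, ← pow_succ] at h1
        exact h1
    refine ⟨z, hz, fun {y} hy => ?_⟩
    obtain ⟨ξ, hξ, hy'⟩ := step_one α hy hz
    obtain ⟨j, -, hj⟩ := hprim.eq_pow_of_pow_eq_one hξ
    rw [← hj] at hy'
    exact (hpow j).trans hy'.symm
  exact isPathConnected_iff_pathConnectedSpace.1 key

end MFib
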