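import Pool.Agent.Lib.MFib.T.Defs

/-!
# MP_7a61d8_gt, module T.Conj (size 90): a homotopy from `ι` to `ι ∘ h` normalises the image of the fundamental group of the fibre

PROOF. For a homotopy `Φ` from `f` to `g` and a loop `κ` at `x`: `f_*(κ) · Φ(x) = Φ(x) · g_*(κ)` (path composition, `Φ(x) = Φ.evalAt x`; naturality of the isomorphism of functors induced
by a homotopy: `ContinuousMap.Homotopy.evalAt`, `FundamentalGroupoidFunctor.homotopicMapsNatIso`, or `ContinuousMap.Homotopy.eq_diag_path` in
`Mathlib/AlgebraicTopology/FundamentalGroupoid/InducedMaps.lean`). So with `f = ι`, `g = ι ∘ h`, `δ = Φ(x) · ι(ε)`: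
`δ⁻¹ · ι_*(κ) · δ = ι(ε)⁻¹ · (ι ∘ h)_*(κ) · ι(ε) = ι_*(ε⁻¹ · h_*(κ) · ε)`, an element of the image of `π₁(X, x)`. In `FundamentalGroup` the product `p * q` is `q.trans p`
(`FundamentalGroup.mul_def`), so `δ⁻¹ · κ · δ` (composition of paths from left to right) is `[δ] * κ * [δ]⁻¹`.
-/

set_option autoImplicit false

namespace MFib

/-- conjugation in a groupoid -/
private theorem conj_aux {B : Type} [TopologicalSpace B] {x y : B}
    (k : Path.Homotopic.Quotient x x) (k' : Path.Homotopic.Quotient y y)
    (e1 : Path.Homotopic.Quotient x y) (e2 : Path.Homotopic.Quotient y x)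
    (h : k.trans e1 = e1.trans k') :
    (e1.trans e2).symm.trans (k.trans (e1.trans e2)) = e2.symm.trans (k'.trans e2) := by
  have h1 : (e1.trans e2).symm = e2.symm.trans e1.symm := by
    have h2 : (e1.trans e2).symm.trans (e1.trans e2) = Path.Homotopic.Quotient.refl x :=
      Path.Homotopic.Quotient.symm_trans _
    have h3 : (e2.symm.trans e1.symm).trans (e1.trans e2) = Path.Homotopic.Quotient.refl x := by
      rw [Path.Homotopic.Quotient.trans_assoc, ← Path.Homotopic.Quotient.trans_assoc e1.symm,
        Path.Homotopic.Quotient.symm_trans, Path.Homotopic.Quotient.refl_trans,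
        Path.Homotopic.Quotient.symm_trans]
    have h4 := congrArg (fun z => Path.Homotopic.Quotient.trans z (e1.trans e2).symm)
      (h2.trans h3.symm)
    simp only [Path.Homotopic.Quotient.trans_assoc, Path.Homotopic.Quotient.trans_symm,
      Path.Homotopic.Quotient.trans_refl] at h4
    exact h4
  rw [h1, ← Path.Homotopic.Quotient.trans_assoc k, h, Path.Homotopic.Quotient.trans_assoc e1,
    Path.Homotopic.Quotient.trans_assoc e2.symm, ← Path.Homotopic.Quotient.trans_assoc e1.symm,
    Path.Homotopic.Quotient.symm_trans, Path.Homotopic.Quotient.refl_trans]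

theorem conj_range {X B : Type} [TopologicalSpace X] [TopologicalSpace B] (ι : C(X, B))
    (h : C(X, X)) (Φ : ContinuousMap.Homotopy ι (ι.comp h)) (x : X) (ε : Path (h x) x)
    (κ : FundamentalGroup B (ι x)) (hκ : κ ∈ (FundamentalGroup.map ι x).range) :
    cls ((Φ.evalAt x).trans (ε.map ι.continuous)) * κ *
      (cls ((Φ.evalAt x).trans (ε.map ι.continuous)))⁻¹ ∈ (FundamentalGroup.map ι x).range := by
  obtain ⟨k, rfl⟩ := hκ
  obtain ⟨γ, rfl⟩ := Path.Homotopic.Quotient.mk_surjective k
  refine ⟨cls (ε.symm.trans ((γ.map h.continuous).trans ε)), ?_⟩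
  have h1 : (Path.Homotopic.Quotient.mk (γ.map ι.continuous)).trans
      (Path.Homotopic.Quotient.mk (Φ.evalAt x)) =
      (Path.Homotopic.Quotient.mk (Φ.evalAt x)).trans
        (Path.Homotopic.Quotient.mk (γ.map (ι.comp h).continuous)) := by
    rw [← Path.Homotopic.Quotient.mk_trans, ← Path.Homotopic.Quotient.mk_trans]
    exact Path.Homotopic.Quotient.eq.2 (Path.Homotopic.map_trans_evalAt Φ γ)
  have h2 := conj_aux _ _ _ (Path.Homotopic.Quotient.mk (ε.map ι.continuous)) h1
  rw [FundamentalGroup.mul_def, FundamentalGroup.mul_def, FundamentalGroup.inv_def]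
  refine Eq.trans ?_ h2.symm
  rw [← Path.Homotopic.Quotient.mk_symm, ← Path.Homotopic.Quotient.mk_trans,
    ← Path.Homotopic.Quotient.mk_trans]
  show Path.Homotopic.Quotient.mk ((ε.symm.trans ((γ.map h.continuous).trans ε)).map
    ι.continuous) = _
  rw [Path.map_trans, Path.map_trans, Path.map_symm]
  rfl

end MFib
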