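import Pool.Agent.Lib.MFib.T.Defs
import Pool.Agent.Lib.MP_d9f52e_nt.WSurj

/-!
# MP_7a61d8_gt, module T.PathAv (size 90): a path from `z` to `z + 1` avoiding finitely many values of `yy`

PROOF. Let `C₀ = {u | u ∈ lattice ∨ yy u ∈ T}`. It is countable: the lattice is countable (range of `ec`), and for `c ∈ T` the level set `{u ∉ lattice | yy u = c}` is empty or, with `u₀` in it, contained in
`⋃ j < 3, w ^ j u₀ + lattice`: if `yy u = yy u₀` then `xx u ^ 3 = xx u₀ ^ 3` (`curve`), so `xx u = w ^ j xx u₀ = xx (w ^ j u₀)` (`xx_om`) and `yy u = yy (w ^ j u₀)` (`yy_om`), so `u - w ^ j u₀ ∈ lattice` (`xy_inj`).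
`C₀ + 1 = C₀` (`yy_add`, `1 = ec 1`). The complement of a countable set in `ℂ` is path connected (`Set.Countable.isPathConnected_compl_of_one_lt_rank`), nonempty: take `z ∉ C₀`, then `z + 1 ∉ C₀`, and a path in the complement.
-/

set_option autoImplicit false

namespace MFib

open MPd9f52e

private theorem pa_countable_Eis : Countable Eis := by
  have h : Function.Injective (fun b : Eis => (b.re, b.im)) := by
    intro a b hab
    simp only [Prod.mk.injEq] at hab
    exact QuadraticAlgebra.ext hab.1 hab.2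
  exact h.countable

private theorem pa_lat_countable : {z : ℂ | z ∈ LO.lattice}.Countable := by
  have := pa_countable_Eis
  have h : {z : ℂ | z ∈ LO.lattice} = Set.range ec := by
    ext z
    rw [Set.mem_ofPred_eq, mem_LO, Set.mem_range]
  rw [h]
  exact Set.countable_range _

private theorem pa_w_mem {z : ℂ} (h : w * z ∈ LO.lattice) : z ∈ LO.lattice := by
  obtain ⟨b, hb⟩ := (mem_LO _).1 h
  have h1 : ec (om * (om * b)) = z := by
    rw [map_mul, map_mul, ec_om, hb]
    linear_combination z * w_pow_three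
  rw [← h1]
  exact ec_mem _

private theorem pa_cube {x y : ℂ} (h : x ^ 3 = y ^ 3) : x = y ∨ x = w * y ∨ x = w * (w * y) := by
  have h3 : (x - y) * ((x - w * y) * (x - w * (w * y))) = 0 := by
    linear_combination h + (-x ^ 2 * y + w * x * y ^ 2 - (w - 1) * y ^ 3) * w_sq
  rcases mul_eq_zero.1 h3 with h4 | h4
  · exact Or.inl (sub_eq_zero.1 h4)
  · rcases mul_eq_zero.1 h4 with h5 | h5
    · exact Or.inr (Or.inl (sub_eq_zero.1 h5))
    · exact Or.inr (Or.inr (sub_eq_zero.1 h5))

private theorem pa_congr {z u : ℂ} (h : z - u ∈ LO.lattice) : xx z = xx u ∧ yy z = yy u := by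
  obtain ⟨b, hb⟩ := (mem_LO _).1 h
  have h1 : z = u + ec b := by rw [hb]; ring
  rw [h1]
  exact ⟨xx_add u b, yy_add u b⟩

private theorem pa_level (c : ℂ) : {u : ℂ | u ∉ LO.lattice ∧ yy u = c}.Countable := by
  rcases Set.eq_empty_or_nonempty {u : ℂ | u ∉ LO.lattice ∧ yy u = c} with h | ⟨u₀, hu₀, hc⟩
  · rw [h]
    exact Set.countable_empty
  · have hL := pa_lat_countable
    have himg : ∀ v : ℂ, ((fun l : ℂ => v + l) '' {z : ℂ | z ∈ LO.lattice}).Countable :=
      fun v => hL.image _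
    refine ((himg u₀).union ((himg (w * u₀)).union (himg (w * (w * u₀))))).mono ?_
    rintro u ⟨hu, huc⟩
    have hw1 : w * u₀ ∉ LO.lattice := fun h => hu₀ (pa_w_mem h)
    have hw2 : w * (w * u₀) ∉ LO.lattice := fun h => hw1 (pa_w_mem h)
    have hcube : xx u ^ 3 = xx u₀ ^ 3 := by
      rw [← curve hu, ← curve hu₀, huc, hc]
    have key : ∀ v : ℂ, v ∉ LO.lattice → xx u = xx v → yy u = yy v →
        u ∈ (fun l : ℂ => v + l) '' {z : ℂ | z ∈ LO.lattice} := by
      intro v hv h1 h2
      refine ⟨u - v, ?_, by ring⟩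
      exact xy_inj hu hv h1 h2
    rcases pa_cube hcube with h | h | h
    · exact Or.inl (key u₀ hu₀ h (by rw [huc, hc]))
    · exact Or.inr (Or.inl (key _ hw1 (by rw [xx_om, h]) (by rw [yy_om, huc, hc])))
    · exact Or.inr (Or.inr (key _ hw2 (by rw [xx_om, xx_om, h]) (by rw [yy_om, yy_om, huc, hc])))

private theorem pa_bad_countable {T : Set ℂ} (hT : T.Finite) :
    {u : ℂ | u ∈ LO.lattice ∨ yy u ∈ T}.Countable := by
  have h1 : (⋃ c ∈ T, {u : ℂ | u ∉ LO.lattice ∧ yy u = c}).Countable :=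
    hT.countable.biUnion fun c _ => pa_level c
  refine (pa_lat_countable.union h1).mono ?_
  intro u hu
  by_cases hL : u ∈ LO.lattice
  · exact Or.inl hL
  · rcases hu with hu | hu
    · exact absurd hu hL
    · exact Or.inr (Set.mem_biUnion hu ⟨hL, rfl⟩)

theorem exists_path_avoid {T : Set ℂ} (hT : T.Finite) :
    ∃ (z : ℂ) (γ : Path z (z + 1)), ∀ t, γ t ∉ LO.lattice ∧ yy (γ t) ∉ T := by
  have hC := pa_bad_countable hT
  have hr : 1 < Module.rank ℝ ℂ := by
    rw [Complex.rank_real_complex]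
    exact Cardinal.one_lt_two
  have hS := hC.isPathConnected_compl_of_one_lt_rank hr
  obtain ⟨z, hz⟩ := hS.nonempty
  have hz' : ¬ (z ∈ LO.lattice ∨ yy z ∈ T) := hz
  have e1 : z + 1 = z + ec 1 := by rw [map_one]
  have hz1 : z + 1 ∈ {u : ℂ | u ∈ LO.lattice ∨ yy u ∈ T}ᶜ := by
    intro h
    apply hz'
    rcases h with h | h
    · left
      have h2 : (z + 1) - ec 1 ∈ LO.lattice := LO.lattice.sub_mem h (ec_mem 1)
      have h3 : (z + 1) - ec 1 = z := by rw [map_one]; ring
      rwa [h3] at h2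
    · right
      rwa [e1, yy_add] at h
  have hJ := hS.joinedIn z hz (z + 1) hz1
  refine ⟨z, hJ.somePath, fun t => ?_⟩
  have h := hJ.somePath_mem t
  exact ⟨fun h1 => h (Or.inl h1), fun h1 => h (Or.inr h1)⟩

end MFib
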