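import Mathlib

/-!
# MP_7a61d8_gt, module T.PiFG (size 260): the fundamental group of a finite union of convex open sets

PROOF of `fg_of_convex_cover`. `X = ⋃ j, U j`. (a) Two paths of `X` with the same end points and values in the same `U j` are homotopic in `X`: straight line
homotopy inside the convex set `U j`. For `x, y ∈ U j` let `seg j x y : Path x y` be the straight line (a path of `X`). By (a): `seg j x y · seg j y z ~ seg j x z`, and `seg i x y = seg j x y`
if `x, y ∈ U i ∩ U j` (the same function).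
Choose `c j ∈ U j` for each `j` with `U j` nonempty and a path `τ j` in `X` from `x₀` to `c j` (`X` is path connected); `r j x = [τ j · seg j (c j) x]` for `x ∈ U j`, a homotopy class from
`x₀` to `x`. For `x, y ∈ U j`: `r j y = r j x · [seg j x y]`. So for `x ∈ U i ∩ U j` the class `r i x · (r j x)⁻¹ ∈ π₁(X, x₀)` does not depend on `x` (`U i ∩ U j` is convex): call it `g i j`
(`1` if `U i ∩ U j` is empty); let `h j = r j x₀` if `x₀ ∈ U j`, else `1`. Let `G₀` be the subgroup generated by the finitely many `g i j`, `h j`. Claim `G₀ = ⊤`.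
Let `γ` be a loop at `x₀`. `exists_monotone_Icc_subset_open_cover_unitInterval` (for the open cover `γ ⁻¹ (U j)`) gives a monotone sequence `t n` in `[0,1]`, `t 0 = 0`, eventually `1`, and
`γ ([t n, t (n+1)]) ⊆ U (j n)`. By induction on `n`: `[γ restricted to [0, t n]] · (r (j n) (γ (t n)))⁻¹ ∈ G₀` (`Path.subpath 0 (t n)` and the lemma on concatenation of
subpaths in `Mathlib/Topology/Subpath.lean`). `n = 0`: it is `h⁻¹`. Step: the restriction of `γ` to `[t n, t (n+1)]` is homotopic to the segment by (a), so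
`[γ|[0, t (n+1)]] = g · r (j n) (γ (t n)) · seg = g · r (j n) (γ (t (n+1)))` with `g ∈ G₀`, and `r (j n) y = g (j n) (j (n+1)) · r (j (n+1)) y` at `y = γ (t (n+1))`. At the end `[γ] = g · h ∈ G₀`.
(`FundamentalGroup` multiplication is reversed composition, `FundamentalGroup.mul_def`; this does not matter for subgroups.)
`fg_compl_finite`: for `a ∈ Xᶜ` (finite set `T`) the complement of `{a}` is the union of the three open half planes `H_k(a) = {z | 0 < re ((z - a) * ω_k)}`, `ω_k` the cube roots of unity (or `0 < re (z - a)`,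
`re (z - a) < im (z - a)` and `re (z - a) < - im (z - a)`). So `X = ⋃ σ : T → Fin 3, ⋂ a, H_{σ a} (a)`, a finite union of convex open sets.
`pathConnected_compl_finite`: `Set.Countable.isPathConnected_compl_of_one_lt_rank`.
-/

set_option autoImplicit false

namespace MFib

open CategoryTheory unitInterval

section

variable {E : Type} [NormedAddCommGroup E] [NormedSpace ℝ E] {X : Set E}

private def seg (C : Set E) (hC : Convex ℝ C) (hCX : C ⊆ X)
    (x y : X) (hx : (x : E) ∈ C) (hy : (y : E) ∈ C) : Path x y where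
  toFun t := ⟨AffineMap.lineMap (x : E) (y : E) (t : ℝ),
    hCX (hC.lineMap_mem hx hy ⟨t.2.1, t.2.2⟩)⟩
  continuous_toFun := by
    refine Continuous.subtype_mk ?_ _
    simp only [AffineMap.lineMap_apply]
    fun_prop
  source' := by ext; simp
  target' := by ext; simp

private lemma seg_mem (C : Set E) (hC : Convex ℝ C) (hCX : C ⊆ X)
    (x y : X) (hx : (x : E) ∈ C) (hy : (y : E) ∈ C) (t : I) :
    ((seg C hC hCX x y hx hy t : X) : E) ∈ C :=
  hC.lineMap_mem hx hy ⟨t.2.1, t.2.2⟩

private lemma homotopic_of_convex {C : Set E} (hC : Convex ℝ C) (hCX : C ⊆ X) {x y : X}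
    (p q : Path x y) (hp : ∀ t, (p t : E) ∈ C) (hq : ∀ t, (q t : E) ∈ C) : p.Homotopic q :=
  ⟨{ toFun := fun z => ⟨AffineMap.lineMap (p z.2 : E) (q z.2 : E) (z.1 : ℝ),
        hCX (hC.lineMap_mem (hp _) (hq _) z.1.2)⟩
     continuous_toFun := by
       refine Continuous.subtype_mk ?_ _
       simp only [AffineMap.lineMap_apply]
       fun_prop
     map_zero_left := by intro z; ext; simp
     map_one_left := by intro z; ext; simp
     prop' := by
       intro t z hz
       rcases hz with rfl | rfl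
       · ext; simp
       · ext; simp }⟩

omit [NormedSpace ℝ E] in
private lemma trans_mem {C : Set E} {x y z : X} (p : Path x y) (q : Path y z)
    (hp : ∀ t, (p t : E) ∈ C) (hq : ∀ t, (q t : E) ∈ C) (t : I) :
    ((p.trans q t : X) : E) ∈ C := by
  rw [Path.trans_apply]
  split_ifs
  · exact hp _
  · exact hq _

/-- the morphism of the fundamental groupoid given by a path -/
private def cl {x y : X} (p : Path x y) : FundamentalGroupoid.mk x ⟶ FundamentalGroupoid.mk y :=
  Path.Homotopic.Quotient.mk p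

omit [NormedSpace ℝ E] in
private lemma cl_trans {x y z : X} (p : Path x y) (q : Path y z) :
    cl (p.trans q) = cl p ≫ cl q := rfl

omit [NormedSpace ℝ E] in
private lemma cl_eq {x y : X} {p q : Path x y} (h : p.Homotopic q) : cl p = cl q :=
  Path.Homotopic.Quotient.eq.2 h

omit [NormedSpace ℝ E] in
private lemma cl_surj {x y : X} (f : FundamentalGroupoid.mk x ⟶ FundamentalGroupoid.mk y) :
    ∃ p : Path x y, f = cl p := by
  obtain ⟨p, hp⟩ := Path.Homotopic.Quotient.mk_surjective f
  exact ⟨p, hp.symm⟩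

private lemma exists_r [PathConnectedSpace X] (x₀ : X) (C : Set E) (hC : Convex ℝ C)
    (hCX : C ⊆ X) :
    ∃ r : (x : X) → (x : E) ∈ C → (FundamentalGroupoid.mk x₀ ⟶ FundamentalGroupoid.mk x),
      ∀ (x y : X) (hx : (x : E) ∈ C) (hy : (y : E) ∈ C) (p : Path x y),
        (∀ t, (p t : E) ∈ C) → r y hy = r x hx ≫ cl p := by
  by_cases hne : C.Nonempty
  · obtain ⟨c, hc⟩ := hne
    let c' : X := ⟨c, hCX hc⟩
    let τ : Path x₀ c' := PathConnectedSpace.somePath x₀ c'
    refine ⟨fun x hx => cl τ ≫ cl (seg C hC hCX c' x hc hx), ?_⟩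
    intro x y hx hy p hp
    have h : cl (seg C hC hCX c' y hc hy) = cl (seg C hC hCX c' x hc hx) ≫ cl p := by
      rw [← cl_trans]
      apply cl_eq
      exact homotopic_of_convex hC hCX _ _ (seg_mem _ _ _ _ _ _ _)
        (trans_mem _ _ (seg_mem _ _ _ _ _ _ _) hp)
    change cl τ ≫ cl (seg C hC hCX c' y hc hy) = (cl τ ≫ cl (seg C hC hCX c' x hc hx)) ≫ cl p
    rw [h, Category.assoc]
  · refine ⟨fun x hx => (hne ⟨_, hx⟩).elim, ?_⟩
    intro x y hx
    exact (hne ⟨_, hx⟩).elim

end

theorem fg_of_convex_cover {E : Type} [NormedAddCommGroup E] [NormedSpace ℝ E] {J : Type}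
    [Finite J] (U : J → Set E) (hU : ∀ j, IsOpen (U j)) (hc : ∀ j, Convex ℝ (U j))
    (X : Set E) (hX : X = ⋃ j, U j) [PathConnectedSpace X] (x₀ : X) :
    Group.FG (FundamentalGroup X x₀) := by
  have hUX : ∀ j, U j ⊆ X := fun j => by rw [hX]; exact Set.subset_iUnion U j
  choose r hr using fun j => exists_r x₀ (U j) (hc j) (hUX j)
  let Sg : J → J → Set (FundamentalGroup X x₀) := fun i j =>
    {k | ∃ (x : X) (hi : (x : E) ∈ U i) (hj : (x : E) ∈ U j),
      k = r i x hi ≫ Groupoid.inv (r j x hj)}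
  let Sh : J → Set (FundamentalGroup X x₀) := fun j =>
    {k | ∃ (hj : (x₀ : E) ∈ U j), k = r j x₀ hj}
  let S : Set (FundamentalGroup X x₀) := (⋃ i, ⋃ j, Sg i j) ∪ ⋃ j, Sh j
  have hSg : ∀ i j, (Sg i j).Subsingleton := by
    rintro i j k ⟨x, hi, hj, rfl⟩ k' ⟨y, hi', hj', rfl⟩
    have hseg := seg_mem (U i ∩ U j) ((hc i).inter (hc j))
      (Set.inter_subset_left.trans (hUX i)) x y ⟨hi, hj⟩ ⟨hi', hj'⟩
    rw [hr i x y hi hi' _ (fun t => (hseg t).1), hr j x y hj hj' _ (fun t => (hseg t).2)]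
    simp
  have hSfin : S.Finite := by
    refine Set.Finite.union ?_ ?_
    · exact Set.finite_iUnion fun i => Set.finite_iUnion fun j => (hSg i j).finite
    · refine Set.finite_iUnion fun j => Set.Subsingleton.finite ?_
      rintro k ⟨hj, rfl⟩ k' ⟨hj', rfl⟩
      rfl
  rw [Group.fg_iff]
  refine ⟨S, ?_, hSfin⟩
  rw [Subgroup.eq_top_iff']
  intro q
  let G₀ : Subgroup (FundamentalGroup X x₀) := Subgroup.closure S
  have hmul : ∀ a b : FundamentalGroup X x₀, a ∈ G₀ → b ∈ G₀ →
      (show FundamentalGroup X x₀ from (a ≫ b)) ∈ G₀ := fun a b ha hb => G₀.mul_mem hb ha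
  have hinv : ∀ a : FundamentalGroup X x₀, a ∈ G₀ →
      (show FundamentalGroup X x₀ from (Groupoid.inv a)) ∈ G₀ := fun a ha => G₀.inv_mem ha
  let P : (x : X) → (FundamentalGroupoid.mk x₀ ⟶ FundamentalGroupoid.mk x) → Prop :=
    fun x φ => ∀ j (hj : (x : E) ∈ U j),
      (show FundamentalGroup X x₀ from (φ ≫ Groupoid.inv (r j x hj))) ∈ G₀
  have hP0 : P x₀ (𝟙 _) := by
    intro j hj
    have h1 : (show FundamentalGroup X x₀ from r j x₀ hj) ∈ G₀ :=
      Subgroup.subset_closure (Or.inr (Set.mem_iUnion.2 ⟨j, hj, rfl⟩))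
    have := hinv _ h1
    simpa using this
  have hstep : ∀ (y z : X) (φ : FundamentalGroupoid.mk x₀ ⟶ FundamentalGroupoid.mk y)
      (p : Path y z) (i : J), P y φ → (∀ t, (p t : E) ∈ U i) → P z (φ ≫ cl p) := by
    intro y z φ p i hφ hp j hj
    have hy : (y : E) ∈ U i := by simpa using hp 0
    have hz : (z : E) ∈ U i := by simpa using hp 1
    have e1 : cl p = Groupoid.inv (r i y hy) ≫ r i z hz := by
      rw [hr i y z hy hz p hp]; simp
    have h2 : (show FundamentalGroup X x₀ from (r i z hz ≫ Groupoid.inv (r j z hj))) ∈ G₀ :=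
      Subgroup.subset_closure (Or.inl (Set.mem_iUnion₂.2 ⟨i, j, z, hz, hj, rfl⟩))
    have := hmul _ _ (hφ i hy) h2
    have e2 : (φ ≫ cl p) ≫ Groupoid.inv (r j z hj) =
        (φ ≫ Groupoid.inv (r i y hy)) ≫ (r i z hz ≫ Groupoid.inv (r j z hj)) := by
      rw [e1]; simp
    change (show FundamentalGroup X x₀ from (φ ≫ cl p) ≫ Groupoid.inv (r j z hj)) ∈ G₀
    rw [e2]
    exact this
  have hpath : ∀ (a b : X) (γ : Path a b)
      (φ : FundamentalGroupoid.mk x₀ ⟶ FundamentalGroupoid.mk a), P a φ → P b (φ ≫ cl γ) := by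
    rintro a b γ
    obtain ⟨f, rfl, rfl⟩ := γ
    intro φ hφ
    set γ : Path (f 0) (f 1) := ⟨f, rfl, rfl⟩ with hγ
    obtain ⟨t, ht0, htm, ⟨N, hN⟩, ht⟩ := exists_monotone_Icc_subset_open_cover_unitInterval
      (c := fun j => {s : I | (γ s : E) ∈ U j})
      (fun j => (hU j).preimage (by fun_prop)) (by
        intro s _
        obtain ⟨j, hj⟩ := Set.mem_iUnion.1 (hX.subset (γ s).2)
        exact Set.mem_iUnion.2 ⟨j, hj⟩)
    have hind : ∀ n, P (γ (t n)) (φ ≫ cl (γ.subpath 0 (t n))) := by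
      intro n
      induction n with
      | zero =>
        rw [ht0, Path.subpath_self]
        have h8 : φ ≫ 𝟙 (FundamentalGroupoid.mk (f 0)) = φ := Category.comp_id φ
        have h9 : P (f 0) (φ ≫ 𝟙 (FundamentalGroupoid.mk (f 0))) := h8.symm ▸ hφ
        exact h9
      | succ n ih =>
        obtain ⟨i, hi⟩ := ht n
        have h3 := hstep _ _ _ (γ.subpath (t n) (t (n + 1))) i ih (by
          intro s
          have h4 : (γ.subpath (t n) (t (n + 1))) s ∈ Set.range (γ.subpath (t n) (t (n + 1))) :=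
            ⟨s, rfl⟩
          rw [Path.range_subpath_of_le _ _ _ (htm (Nat.le_succ n))] at h4
          obtain ⟨u, hu, hu'⟩ := h4
          rw [← hu']
          exact hi hu)
        rw [Category.assoc, ← cl_trans,
          cl_eq ⟨Path.Homotopy.subpathTransSubpath γ 0 (t n) (t (n + 1))⟩] at h3
        exact h3
    have := hind N
    rw [hN N le_rfl, Path.subpath_zero_one] at this
    exact this
  obtain ⟨γ, rfl⟩ := cl_surj q
  have h5 := hpath x₀ x₀ γ (𝟙 _) hP0
  obtain ⟨j, hj⟩ := Set.mem_iUnion.1 (hX.subset x₀.2)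
  have h1 : (show FundamentalGroup X x₀ from r j x₀ hj) ∈ G₀ :=
    Subgroup.subset_closure (Or.inr (Set.mem_iUnion.2 ⟨j, hj, rfl⟩))
  have h6 := hmul _ _ (h5 j hj) h1
  have e3 : ((𝟙 _ ≫ cl γ) ≫ Groupoid.inv (r j x₀ hj)) ≫ r j x₀ hj = cl γ := by simp
  have h7 : (show FundamentalGroup X x₀ from ((𝟙 _ ≫ cl γ) ≫ Groupoid.inv (r j x₀ hj)) ≫ r j x₀ hj) ∈ G₀ := h6
  rw [e3] at h7
  exact h7

theorem pathConnected_compl_finite {X : Set ℂ} (hX : Xᶜ.Finite) : PathConnectedSpace X := by
  rw [← isPathConnected_iff_pathConnectedSpace]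
  have := Set.Countable.isPathConnected_compl_of_one_lt_rank (E := ℂ)
    (by rw [Complex.rank_real_complex]; norm_num) hX.countable
  rwa [compl_compl] at this

theorem fg_compl_finite {X : Set ℂ} (hX : Xᶜ.Finite) (x₀ : X) :
    Group.FG (FundamentalGroup X x₀) := by
  have := pathConnected_compl_finite hX
  have : Finite ↥(Xᶜ) := hX
  let L : Fin 3 → (ℂ →L[ℝ] ℝ) :=
    ![Complex.reCLM, Complex.imCLM - Complex.reCLM, -Complex.imCLM - Complex.reCLM]
  have hL : ∀ z : ℂ, z ≠ 0 → ∃ k, 0 < L k z := by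
    intro z hz
    by_cases h0 : 0 < z.re
    · exact ⟨0, by simpa [L] using h0⟩
    by_cases h1 : z.re < z.im
    · exact ⟨1, by simpa [L] using h1⟩
    refine ⟨2, ?_⟩
    push Not at h0 h1
    have h2 : z.re < -z.im := by
      rcases eq_or_lt_of_le h0 with h | h
      · rcases eq_or_lt_of_le h1 with h' | h'
        · exact (hz (Complex.ext (by simpa using h) (by simpa using h'.trans h))).elim
        · linarith
      · linarith
    simpa [L, sub_pos] using h2
  let U : (↥(Xᶜ) → Fin 3) → Set ℂ := fun σs => ⋂ a : ↥(Xᶜ), {z | L (σs a) (a : ℂ) < L (σs a) z}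
  refine fg_of_convex_cover U ?_ ?_ X ?_ x₀
  · intro σs
    exact isOpen_iInter_of_finite fun a => isOpen_lt continuous_const (L (σs a)).continuous
  · intro σs
    exact convex_iInter fun a => convex_halfSpace_gt (L (σs a)).isLinear _
  · ext z
    simp only [U, Set.mem_iUnion, Set.mem_iInter, Set.mem_ofPred_eq]
    constructor
    · intro hz
      have h3 : ∀ a : ↥(Xᶜ), ∃ k, L k (a : ℂ) < L k z := by
        intro a
        obtain ⟨k, hk⟩ := hL (z - a) (sub_ne_zero.2 (fun h => a.2 (h ▸ hz)))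
        exact ⟨k, by simpa [map_sub, sub_pos] using hk⟩
      choose σs hσs using h3
      exact ⟨σs, hσs⟩
    · rintro ⟨σs, hσs⟩
      by_contra hz
      exact lt_irrefl _ (hσs ⟨z, hz⟩)

end MFib
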