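import Mathlib
import Pool.Agent.Lib.MP_0162a5_an.Roots

/-!
# MP_7a61d8_gt, module T.RootsPath (size 120): the roots along a path

PROOF. Work on `A = Icc 0 1 ⊆ ℝ` (compact, convex) with the family `t ↦ a (projIcc t)`. `a 0` has `d` distinct roots `z i` (separable, degree `d`, `ℂ` algebraically closed; `Fin d ≃` its root set). `root_branch` (Roots.lean) gives continuous
`g i` on `A` with `g i 0 = z i`, `(a t).eval (g i t) = 0`. If `g i t = g j t` for some `t` then `g i = g j` on `A` (`root_branch_unique`), so `z i = z j`, `i = j`. For each `t` the `d` distinct numbers `g i t` are all the roots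
of the monic polynomial `a t` of degree `d` (`eq_prod_of_inj`).
-/

set_option autoImplicit false

open unitInterval

namespace MFib

theorem exists_roots_path {d : ℕ} (a : I → Polynomial ℂ) (hc : ∀ k, Continuous fun t => (a t).coeff k)
    (hm : ∀ t, (a t).Monic) (hn : ∀ t, (a t).natDegree = d) (hs : ∀ t, (a t).Separable) :
    ∃ p : Fin d → C(I, ℂ), (∀ t i j, i ≠ j → p i t ≠ p j t) ∧
      ∀ t x, (a t).eval x = 0 ↔ ∃ i, x = p i t := by
  classical
  set P : ℝ → Polynomial ℂ := fun t => a (Set.projIcc 0 1 zero_le_one t) with hP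
  have hPt : ∀ t : I, P t = a t := fun t => by
    rw [hP]
    exact congrArg a (Set.projIcc_val zero_le_one t)
  have hPc : ∀ k, ContinuousOn (fun x => (P x).coeff k) (Set.Icc (0 : ℝ) 1) := fun k =>
    ((hc k).comp continuous_projIcc).continuousOn
  have hPm : ∀ x ∈ Set.Icc (0 : ℝ) 1, (P x).Monic := fun x _ => hm _
  have hPn : ∀ x ∈ Set.Icc (0 : ℝ) 1, (P x).natDegree = d := fun x _ => hn _
  have hPs : ∀ x ∈ Set.Icc (0 : ℝ) 1, (P x).Separable := fun x _ => hs _
  have h0 : (0 : ℝ) ∈ Set.Icc (0 : ℝ) 1 := ⟨le_rfl, zero_le_one⟩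
  have hcard : (P 0).roots.toFinset.card = d := by
    rw [Multiset.toFinset_card_of_nodup (Polynomial.nodup_roots (hPs 0 h0)), ← hPn 0 h0]
    exact IsAlgClosed.card_roots_eq_natDegree
  let e := Finset.equivFinOfCardEq hcard
  let z : Fin d → ℂ := fun i => (e.symm i : ℂ)
  have hzinj : Function.Injective z := fun i j hij => e.symm.injective (Subtype.ext hij)
  have hz : ∀ i, (P 0).eval (z i) = 0 := by
    intro i
    have h1 := (e.symm i).2
    rw [Multiset.mem_toFinset, Polynomial.mem_roots (hPm 0 h0).ne_zero] at h1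
    exact h1
  choose g hg hg0 hg1 using fun i => Pool.Agent.T05.root_branch isCompact_Icc (convex_Icc 0 1)
    hPc hPm hPn hPs h0 (hz i)
  have hinj : ∀ t ∈ Set.Icc (0 : ℝ) 1, Function.Injective (fun i => g i t) := by
    intro t ht i j hij
    have h1 := Pool.Agent.T05.root_branch_unique (convex_Icc 0 1).isPreconnected hPc hPm hPn hPs
      (hg i) (hg j) (hg1 i) (hg1 j) ht hij _ h0
    rw [hg0, hg0] at h1
    exact hzinj h1
  refine ⟨fun i => ⟨fun t => g i t, continuousOn_iff_continuous_domRestrict.1 (hg i)⟩, ?_, ?_⟩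
  · intro t i j hij h
    exact hij (hinj t t.2 h)
  · intro t x
    have h1 := Pool.Agent.T05.eq_prod_of_inj (hPm t t.2) (hPn t t.2) (fun i => g i t)
      (fun i => hg1 i t t.2) (hinj t t.2)
    rw [hPt] at h1
    rw [h1, Polynomial.eval_prod, Finset.prod_eq_zero_iff]
    constructor
    · rintro ⟨i, -, hi⟩
      rw [Polynomial.eval_sub, Polynomial.eval_X, Polynomial.eval_C, sub_eq_zero] at hi
      exact ⟨i, hi⟩
    · rintro ⟨i, hi⟩
      refine ⟨i, Finset.mem_univ i, ?_⟩
      rw [Polynomial.eval_sub, Polynomial.eval_X, Polynomial.eval_C, sub_eq_zero]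
      exact hi

end MFib
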