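import Pool.Agent.Lib.MFib.T.Iso
import Pool.Agent.Lib.MFib.T.PiFG
import Pool.Agent.Lib.MFib.T.Conj
import Pool.Agent.Lib.MFib.T.RootsPath
import Pool.Agent.Lib.MFib.T.PathAv

/-!
# MP_7a61d8_gt, module T.Base (size 230): loops in the base

PROOF. `exists_path_avoid` for `T` gives `w₁ : Path z (z + 1)`, `s t = yy (w₁ t) ∉ T`, continuous (`yy` is continuous off the lattice), `s 1 = s 0 =: s₀` (`yy_add`). `exists_roots_path` for `a t = q (s t)` gives `p i`, `exists_isotopy` gives `H`. `X = {x | (q s₀).eval x ≠ 0}`, a set with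
finite complement. `ι : X → Bq T q`, `x ↦ (s₀, x)`. `h x = H (1, x) ∈ X` for `x ∈ X`: otherwise `H (1, x) = p i 1` for some `i` (`s 1 = s₀`), so `x = p i 0` is a root of `q s₀`. `Φ (t, x) = (s t, H (t, x))` is in `Bq T q` (otherwise `H (t, x) = p i t`, `x = p i 0`):
a homotopy from `ι` to `ι ∘ h`. `exists_path_avoid` for the finite set `Xᶜ` gives `w₂ : Path z' (z' + 1)` with `yy (w₂ t) ∈ X`; `x₀ = yy z'`, `κ₀ t = yy (w₂ t)` a loop of `X` at `x₀`. `b = ι x₀`, `K' = range of ι_*` on `π₁(X, x₀)`, finitely generated (`fg_compl_finite`).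
`ε` a path in `X` from `h x₀` to `x₀` (`pathConnected_compl_finite`). `δ = (Φ.evalAt x₀).trans (ι ε)`: `conj_range`. Its first coordinate is `s (2t)` and then `s₀`: equal to `yy` of `w = w₁.trans (refl (z + 1))` (`Path.trans_apply`). The elements of `K'` are classes of `ι ∘ γ`.
`κ = ι κ₀`, `w' = w₂`.
-/

set_option autoImplicit false

namespace MFib

open MPd9f52e

open scoped unitInterval

private theorem yy_contOn : ContinuousOn yy (LO.lattice : Set ℂ)ᶜ := by
  have h := LO.differentiableOn_derivWeierstrassP.continuousOn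
  unfold yy
  exact ((h.div_const _).sub continuousOn_const).div_const _

private theorem yy_per (z : ℂ) : yy (z + 1) = yy z := by
  have h := yy_add z 1
  rwa [map_one] at h

private theorem map_cls {X Y : Type} [TopologicalSpace X] [TopologicalSpace Y] (f : C(X, Y)) {x : X}
    (γ : Path x x) : FundamentalGroup.map f x (cls γ) = cls (γ.map f.continuous) := by
  rfl

private theorem range_rep {X Y : Type} [TopologicalSpace X] [TopologicalSpace Y] (f : C(X, Y)) {x : X}
    {k : FundamentalGroup Y (f x)} (hk : k ∈ (FundamentalGroup.map f x).range) :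
    ∃ γ : Path x x, cls (γ.map f.continuous) = k := by
  obtain ⟨g, rfl⟩ := hk
  obtain ⟨γ, rfl⟩ := Path.Homotopic.Quotient.mk_surjective g
  exact ⟨γ, rfl⟩

theorem base_geometry {T : Set ℂ} {d : ℕ} {q : ℂ → Polynomial ℂ} (hq : GoodFam T d q) :
    ∃ (b : Bq T q) (K' : Subgroup (FundamentalGroup (Bq T q) b)) (δ κ : Path b b) (z z' : ℂ)
      (w : Path z (z + 1)) (w' : Path z' (z' + 1)), K'.FG ∧
      (∀ k ∈ K', cls δ * k * (cls δ)⁻¹ ∈ K') ∧
      (∀ t, w t ∉ LO.lattice ∧ yy (w t) = (δ t).1.1) ∧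
      (∀ k ∈ K', ∃ γ : Path b b, cls γ = k ∧ ∀ t, (γ t).1.1 = b.1.1) ∧
      cls κ ∈ K' ∧ ∀ t, w' t ∉ LO.lattice ∧ yy (w' t) = (κ t).1.2 := by
  classical
  obtain ⟨z, w₁, hw₁⟩ := exists_path_avoid hq.fin
  -- the loop of the base coordinate
  have hsc : Continuous fun t : I => yy (w₁ t) :=
    yy_contOn.comp_continuous w₁.continuous fun t => (hw₁ t).1
  set s : I → ℂ := fun t => yy (w₁ t) with hs
  have hsT : ∀ t, s t ∉ T := fun t => (hw₁ t).2
  have hs1 : s 1 = s 0 := by
    simp only [hs, Path.target, Path.source, yy_per]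
  obtain ⟨p, hp1, hp2⟩ := exists_roots_path (d := d) (fun t => q (s t))
    (fun k => (hq.cont k).comp_continuous hsc hsT) (fun t => hq.monic _ (hsT t))
    (fun t => hq.deg _ (hsT t)) (fun t => hq.sep _ (hsT t))
  obtain ⟨H, hH0, hH1⟩ := exists_isotopy p hp1
  set X : Set ℂ := {x | (q (s 0)).eval x ≠ 0} with hX
  have hXfin : Xᶜ.Finite := by
    have h0 : q (s 0) ≠ 0 := (hq.monic _ (hsT 0)).ne_zero
    refine ((q (s 0)).roots.toFinset.finite_toSet).subset fun x hx => ?_
    have : (q (s 0)).eval x = 0 := by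
      by_contra h
      exact hx h
    simp [h0, this]
  have hιm : ∀ x : X, ((s 0, (x : ℂ)) : ℂ × ℂ) ∈ Bq T q := fun x => ⟨hsT 0, x.2⟩
  let ι : C(X, Bq T q) := ⟨fun x => ⟨(s 0, (x : ℂ)), hιm x⟩, by fun_prop⟩
  have hhm : ∀ x : X, H (1, (x : ℂ)) ∈ X := by
    intro x h0
    have h0' : (q (s 1)).eval (H (1, (x : ℂ))) = 0 := by rw [hs1]; exact h0
    obtain ⟨i, hi⟩ := (hp2 1 _).1 h0'
    have hx := hH1 1 x i hi
    exact x.2 ((hp2 0 _).2 ⟨i, hx⟩)
  let h : C(X, X) := ⟨fun x => ⟨H (1, (x : ℂ)), hhm x⟩, by fun_prop⟩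
  have hΦm : ∀ tx : I × X, ((s tx.1, H (tx.1, (tx.2 : ℂ))) : ℂ × ℂ) ∈ Bq T q := by
    intro tx
    refine ⟨hsT _, fun h0 => ?_⟩
    obtain ⟨i, hi⟩ := (hp2 tx.1 _).1 h0
    have hx := hH1 tx.1 tx.2 i hi
    exact tx.2.2 ((hp2 0 _).2 ⟨i, hx⟩)
  let Φ : ContinuousMap.Homotopy ι (ι.comp h) :=
    { toFun := fun tx => ⟨(s tx.1, H (tx.1, (tx.2 : ℂ))), hΦm tx⟩
      continuous_toFun := by
        refine Continuous.subtype_mk ?_ _
        exact (hsc.comp continuous_fst).prodMk
          (H.continuous.comp (continuous_fst.prodMk (continuous_subtype_val.comp continuous_snd)))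
      map_zero_left := fun x => by
        apply Subtype.ext
        simp [ι, hH0]
      map_one_left := fun x => by
        apply Subtype.ext
        simp [ι, h, hs1] }
  obtain ⟨z', w₂, hw₂⟩ := exists_path_avoid hXfin
  have hw₂X : ∀ t, yy (w₂ t) ∈ X := fun t => by
    by_contra hc
    exact (hw₂ t).2 hc
  have hz' : yy z' ∈ X := by
    have := hw₂X 0
    rwa [Path.source] at this
  let x₀ : X := ⟨yy z', hz'⟩
  let κ₀ : Path x₀ x₀ :=
    { toFun := fun t => ⟨yy (w₂ t), hw₂X t⟩
      continuous_toFun := by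
        refine Continuous.subtype_mk ?_ _
        exact yy_contOn.comp_continuous w₂.continuous fun t => (hw₂ t).1
      source' := by
        apply Subtype.ext
        simp [x₀]
      target' := by
        apply Subtype.ext
        simp [x₀, yy_per] }
  have : PathConnectedSpace X := pathConnected_compl_finite hXfin
  have : Group.FG (FundamentalGroup X x₀) := fg_compl_finite hXfin x₀
  let ε : Path (h x₀) x₀ := PathConnectedSpace.somePath _ _
  refine ⟨ι x₀, (FundamentalGroup.map ι x₀).range,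
    (Φ.evalAt x₀).trans (ε.map ι.continuous), κ₀.map ι.continuous, z, z',
    w₁.trans (Path.refl (z + 1)), w₂, ?_, ?_, ?_, ?_, ?_, ?_⟩
  · exact (Group.fg_iff_subgroup_fg _).1 inferInstance
  · intro k hk
    exact conj_range ι h Φ x₀ ε k hk
  · intro t
    rw [Path.trans_apply, Path.trans_apply]
    split_ifs with ht
    · exact ⟨(hw₁ _).1, rfl⟩
    · refine ⟨?_, ?_⟩
      · have := (hw₁ 1).1
        rwa [Path.target] at this
      · have : yy (z + 1) = s 0 := by
          rw [← hs1]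
          simp [hs]
        simpa [ι] using this
  · intro k hk
    obtain ⟨γ, rfl⟩ := range_rep ι hk
    exact ⟨γ.map ι.continuous, rfl, fun t => rfl⟩
  · exact ⟨cls κ₀, rfl⟩
  · intro t
    exact ⟨(hw₂ t).1, rfl⟩

end MFib
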