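import Mathlib

/-!
# MP_7a61d8_gt, module T.CovGrp (size 150): subgroups of the fundamental group of a finite covering

PROOF. `P = FundamentalGroup.map p y : π₁(Y, y) → π₁(B, p y)` is injective (`IsCoveringMap.injective_path_homotopic_map`). `hp.monodromyPerm (p y)` is an action of
`π₁(B, p y)` on the finite fibre, and the stabiliser of `⟨y, rfl⟩` is the range of `P`: `IsCoveringMap.monodromy_map` (`P k` fixes `y`) and conversely if the monodromy of `γ` fixes `y`
then `hp.liftPathQuotient γ ⟨y, rfl⟩` (cast) is mapped to `γ` (`IsCoveringMap.map_liftPathQuotient`, compare the proof of `IsQuotientCoveringMap.ker_monodromyPerm`). So the range `H` of `P`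
has finite index (stabiliser of a point in a finite set: the orbit is finite; `MulAction.index_stabilizer` / kernel of a hom to a finite group and `Subgroup.finiteIndex_of_le`), and every `κ` has a
power `κ ^ m ∈ H` with `m > 0` (`Subgroup.exists_pow_mem_of_index_ne_zero`). `K = K'.comap P`. `K ≅ K' ⊓ H`, which has finite index in the finitely generated group `K'`, so it is finitely
generated (`Subgroup.fg_of_index_ne_zero`, Schreier), and `K` is finitely generated since `P` is injective with `P(K) = K' ⊓ H` (`Subgroup.FG` under injective maps: `Subgroup.equivMapOfInjective`).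
For `g'`: `P g = g' ^ m`; if `k ∈ K` then `P (g⁻¹ k g) = g'⁻ᵐ (P k) g' ^ m ∈ K'` by induction on `m` from `g'⁻¹ K' g' ⊆ K'`.
-/

set_option autoImplicit false

namespace MFib

theorem covering_inj {Y B : Type} [TopologicalSpace Y] [TopologicalSpace B] (p : C(Y, B))
    (hp : IsCoveringMap p) (y : Y) : Function.Injective (FundamentalGroup.map p y) := by
  intro a b h
  exact hp.injective_path_homotopic_map y y h

theorem covering_range {Y B : Type} [TopologicalSpace Y] [TopologicalSpace B] (p : C(Y, B))
    (hp : IsCoveringMap p) (y : Y) (γ : FundamentalGroup B (p y)) :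
    γ ∈ (FundamentalGroup.map p y).range ↔
      hp.monodromy γ (⟨y, rfl⟩ : p ⁻¹' {p y}) = ⟨y, rfl⟩ := by
  constructor
  · rintro ⟨k, rfl⟩
    exact hp.monodromy_map k
  · intro h
    refine ⟨(hp.liftPathQuotient γ ⟨y, rfl⟩).cast rfl congr($h.symm), ?_⟩
    change Path.Homotopic.Quotient.map _ p = γ
    have h2 := hp.map_liftPathQuotient γ (⟨y, rfl⟩ : p ⁻¹' {p y})
    rw [Path.Homotopic.Quotient.map_cast]
    erw [h2]
    revert γ
    refine Quotient.ind fun γ h h2 => ?_
    rfl

theorem covering_group {Y B : Type} [TopologicalSpace Y] [TopologicalSpace B] (p : C(Y, B))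
    (hp : IsCoveringMap p) (y : Y) (hfin : Finite (p ⁻¹' {p y}))
    (K' : Subgroup (FundamentalGroup B (p y))) (hK' : K'.FG) (g' : FundamentalGroup B (p y))
    (hg' : ∀ k ∈ K', g'⁻¹ * k * g' ∈ K') :
    ∃ K : Subgroup (FundamentalGroup Y y), K.FG ∧
      (∀ k ∈ K, FundamentalGroup.map p y k ∈ K') ∧
      (∃ m : ℕ, 0 < m ∧ ∃ g : FundamentalGroup Y y, FundamentalGroup.map p y g = g' ^ m ∧
        ∀ k ∈ K, g⁻¹ * k * g ∈ K) ∧
      ∀ κ ∈ K', ∃ m : ℕ, 0 < m ∧ ∃ k ∈ K, FundamentalGroup.map p y k = κ ^ m := by
  have hinj := covering_inj p hp y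
  have hidx : (FundamentalGroup.map p y).range.index ≠ 0 := by
    let _i := hp.fundamentalGroupMulAction (p y)
    have h1 : (FundamentalGroup.map p y).range =
        MulAction.stabilizer (FundamentalGroup B (p y)) (⟨y, rfl⟩ : p ⁻¹' {p y}) := by
      ext γ
      rw [covering_range p hp y γ, MulAction.mem_stabilizer_iff]
      rfl
    rw [h1, MulAction.index_stabilizer]
    exact Set.ncard_ne_zero_of_mem (MulAction.mem_orbit_self _) (Set.toFinite _)
  refine ⟨K'.comap (FundamentalGroup.map p y), ?_, fun k hk => hk, ?_, ?_⟩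
  · have hfg : Group.FG K' := (Group.fg_iff_subgroup_fg K').2 hK'
    have h2 : ((FundamentalGroup.map p y).range.subgroupOf K').index ≠ 0 := by
      intro h3
      exact hidx (Subgroup.index_eq_zero_of_relIndex_eq_zero h3)
    have hfi : ((FundamentalGroup.map p y).range.subgroupOf K').FiniteIndex := ⟨h2⟩
    have h1 : Group.FG ((FundamentalGroup.map p y).range.subgroupOf K') :=
      Subgroup.fg_of_index_ne_zero _
    have h3 : ((FundamentalGroup.map p y).range.subgroupOf K').map K'.subtype =
        (K'.comap (FundamentalGroup.map p y)).map (FundamentalGroup.map p y) := by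
      rw [Subgroup.map_comap_eq, Subgroup.subgroupOf_map_subtype]
    have h4 : Group.FG (((FundamentalGroup.map p y).range.subgroupOf K').map K'.subtype) :=
      Group.fg_of_surjective (f := (Subgroup.equivMapOfInjective _ K'.subtype
        K'.subtype_injective).toMonoidHom) (MulEquiv.surjective _)
    rw [h3] at h4
    rw [← Group.fg_iff_subgroup_fg]
    exact Group.fg_of_surjective (f := ((K'.comap (FundamentalGroup.map p y)).equivMapOfInjective _
      hinj).symm.toMonoidHom) (MulEquiv.surjective _)
  · obtain ⟨m, hm, -, h2⟩ := Subgroup.exists_pow_mem_of_index_ne_zero hidx g'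
    obtain ⟨g, hg⟩ := h2
    refine ⟨m, hm, g, hg, fun k hk => ?_⟩
    rw [Subgroup.mem_comap, map_mul, map_mul, map_inv, hg]
    rw [Subgroup.mem_comap] at hk
    have h3 : ∀ n : ℕ, ∀ k ∈ K', (g' ^ n)⁻¹ * k * g' ^ n ∈ K' := by
      intro n
      induction n with
      | zero => intro k hk; rw [pow_zero, inv_one, one_mul, mul_one]; exact hk
      | succ n ih =>
        intro k hk
        have h4 := hg' _ (ih k hk)
        have h5 : (g' ^ (n + 1))⁻¹ * k * g' ^ (n + 1) = g'⁻¹ * ((g' ^ n)⁻¹ * k * g' ^ n) * g' := by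
          rw [pow_succ]
          group
        rw [h5]
        exact h4
    exact h3 m _ hk
  · intro κ hκ
    obtain ⟨m, hm, -, h2⟩ := Subgroup.exists_pow_mem_of_index_ne_zero hidx κ
    obtain ⟨k, hk⟩ := h2
    refine ⟨m, hm, k, ?_, hk⟩
    rw [Subgroup.mem_comap, hk]
    exact pow_mem hκ m

end MFib
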