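import Pool.Agent.Lib.MFib.T.Defs
import Pool.Agent.Lib.MP_d9f52e_nt.WSurj

/-!
# MP_7a61d8_gt, module T.Wind (size 220): lifts of loops and periods

PROOF of `rep_lift`. Lift `η` to `Γ : C(I, E)` with `Γ 0 = e` (`hp.liftPath`). `k = [γ₀]`, `p ∘ γ₀` is homotopic to `η` (rel end points), so the lifts have the same end point: `Γ 1 = γ₀ 1 = e` (`IsCoveringMap.liftPath_apply_one_eq_of_homotopicRel`). So `Γ` is a loop `γ`, and `p_* [γ] = [η] = p_* k` implies `[γ] = k`
(`IsCoveringMap.injective_path_homotopic_map`).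
`exists_const_lift`: `X (γ t) ^ 3` is constant, so the continuous function `X ∘ γ` has values in a finite set and is constant (`I` is preconnected). `exists_point` gives `z₀ ∉ lattice` with `xx z₀ = X (γ 0)`, `yy z₀ = Y (γ 0)`; `s = z₀` constant.
`wind`: let `δ_0 = refl`, `δ_(m+1) = δ_m.trans δ`, so `cls δ_m = cls δ ^ m` (`FundamentalGroup.mul_def : p * q = q.trans p`, `pow_succ'`). `w_m : Path z (z + m)`, `w_0 = refl`, `w_(m+1) = w_m.trans (w + m)` (casts). By induction (`Path.trans_apply`) `w_m t ∉ lattice` and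
`yy (w_m t) = q (δ_m t)` (`yy_add`, `m = ec m`). `rep_lift` with `η = δ_m` gives the loop `γ`, `cls γ = k`, `p (γ t) = δ_m t`, so `Y (γ t) = yy (w_m t)` and `X (γ t) ^ 3 = xx (w_m t) ^ 3 ≠ 0`. So `X (γ 0) = w ^ j * xx (w_m 0)` with `j < 3` (`w` the cube root of unity of the library).
`s t = w ^ j * w_m t`: not in the lattice, `yy (s t) = yy (w_m t)` (`yy_om`), `xx (s t) = w ^ j xx (w_m t)` (`xx_om`). The quotient `X (γ t) / xx (s t)` is continuous (`xx` is continuous off the lattice), its cube is `1` and it is `1` at `t = 0`: it is `1`. `s 1 - s 0 = w ^ j * m`.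
-/

set_option autoImplicit false

open unitInterval

namespace MFib

open MPd9f52e

theorem rep_lift {E B : Type} [TopologicalSpace E] [TopologicalSpace B] (p : C(E, B))
    (hp : IsCoveringMap p) (e : E) (k : FundamentalGroup E e) (η : Path (p e) (p e))
    (hk : FundamentalGroup.map p e k = cls η) :
    ∃ γ : Path e e, cls γ = k ∧ ∀ t, p (γ t) = η t := by
  revert hk
  refine Quotient.inductionOn k fun γ₀ hk => ?_
  have h0 : (η : C(I, B)) 0 = p e := η.source
  have h1 : ((γ₀.map p.continuous : Path (p e) (p e)) : C(I, B)) 0 = p e := by simp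
  have hhom : ((γ₀.map p.continuous : Path (p e) (p e)) : C(I, B)).HomotopicRel (η : C(I, B)) {0, 1} := by
    have h2 : (Path.Homotopic.Quotient.mk (γ₀.map p.continuous)) = Path.Homotopic.Quotient.mk η := hk
    exact Path.Homotopic.Quotient.eq.1 h2
  have hend := hp.liftPath_apply_one_eq_of_homotopicRel hhom e h1 h0
  have h3 : (hp.liftPath ((γ₀.map p.continuous : Path (p e) (p e)) : C(I, B)) e h1) 1 = e := by
    have h4 := (hp.eq_liftPath_iff' h1 (Γ := (γ₀ : C(I, E)))).2 ⟨by ext t; rfl, γ₀.source⟩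
    rw [← h4]
    exact γ₀.target
  let γ : Path e e := ⟨hp.liftPath (η : C(I, B)) e h0, hp.liftPath_zero .., hend.symm.trans h3⟩
  have hγ : ∀ t, p (γ t) = η t := fun t => congrFun (hp.liftPath_lifts (η : C(I, B)) e h0) t
  refine ⟨γ, ?_, hγ⟩
  apply hp.injective_path_homotopic_map e e
  have h5 : γ.map p.continuous = η := by
    ext t
    exact hγ t
  change (Path.Homotopic.Quotient.mk (γ.map p.continuous)) = _
  rw [h5]
  exact hk.symm

/-- a continuous function on the unit interval with constant cube is constant -/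
theorem cube_const {f : I → ℂ} (hf : Continuous f) {c : ℂ} (h : ∀ t, f t ^ 3 = c) (t : I) :
    f t = f 0 := by
  have hfin : Finite (↑((Polynomial.nthRoots 3 c).toFinset) : Set ℂ) :=
    Finset.finite_toSet _
  have hd : DiscreteTopology (↑((Polynomial.nthRoots 3 c).toFinset) : Set ℂ) := inferInstance
  refine (isPreconnected_univ (α := I)).constant_of_mapsTo
    (T := (↑((Polynomial.nthRoots 3 c).toFinset) : Set ℂ))
    ⟨hd⟩ hf.continuousOn (fun x _ => ?_) (Set.mem_univ t) (Set.mem_univ 0)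
  rw [Finset.mem_coe, Multiset.mem_toFinset, Polynomial.mem_nthRoots (by norm_num)]
  exact h x

theorem exists_const_lift {F : Type} [TopologicalSpace F] {X Y : F → ℂ} (hX : Continuous X)
    (hXY : ∀ z, Y z ^ 2 + Y z = X z ^ 3) (γ : C(I, F)) (hγ : ∀ t, Y (γ t) = Y (γ 0)) :
    ∃ s : C(I, ℂ), IsLift X Y γ s ∧ s 1 = s 0 := by
  obtain ⟨z, hz, hx, hy⟩ := exists_point (hXY (γ 0))
  refine ⟨ContinuousMap.const _ z, fun t => ⟨hz, ?_, ?_⟩, rfl⟩
  · have h1 := cube_const (f := fun t => X (γ t)) (hX.comp γ.continuous) (c := X (γ 0) ^ 3)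
      (fun t => by rw [← hXY, ← hXY, hγ t]) t
    change xx z = X (γ t)
    rw [hx, h1]
  · change yy z = Y (γ t)
    rw [hy, hγ t]

theorem cube_root {u : ℂ} (h : u ^ 3 = 1) : ∃ j : ℕ, u = w ^ j := by
  have h1 : (u - 1) * (u - w) * (u - w ^ 2) = 0 := by
    have e1 : (u - 1) * (u - w) * (u - w ^ 2) = u ^ 3 - u ^ 2 * (1 + w + w ^ 2) +
        u * (w + w ^ 2 + w ^ 3) - w ^ 3 := by ring
    rw [e1, w_pow_three, h, w_sq]
    ring
  rcases mul_eq_zero.1 h1 with h2 | h2
  · rcases mul_eq_zero.1 h2 with h3 | h3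
    · exact ⟨0, by rw [pow_zero]; exact sub_eq_zero.1 h3⟩
    · exact ⟨1, by rw [pow_one]; exact sub_eq_zero.1 h3⟩
  · exact ⟨2, sub_eq_zero.1 h2⟩

theorem xx_pow_om (j : ℕ) (z : ℂ) : xx (w ^ j * z) = w ^ j * xx z := by
  induction j with
  | zero => simp
  | succ j ih =>
    rw [pow_succ', mul_assoc, xx_om, ih]
    ring

theorem yy_pow_om (j : ℕ) (z : ℂ) : yy (w ^ j * z) = yy z := by
  induction j with
  | zero => simp
  | succ j ih =>
    rw [pow_succ', mul_assoc, yy_om, ih]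

theorem lat_pow_om (j : ℕ) {z : ℂ} (hz : z ∉ LO.lattice) : w ^ j * z ∉ LO.lattice := by
  intro h
  apply hz
  obtain ⟨b, hb⟩ := (mem_LO _).1 h
  rw [mem_LO]
  refine ⟨om ^ (2 * j) * b, ?_⟩
  rw [map_mul, map_pow, ec_om, hb, ← mul_assoc, ← pow_add]
  have : 2 * j + j = 3 * j := by ring
  rw [this, pow_mul, w_pow_three, one_pow, one_mul]

theorem xx_cont_comp {s : I → ℂ} (hs : Continuous s) (h : ∀ t, s t ∉ LO.lattice) :
    Continuous fun t => xx (s t) := by
  have h1 : ContinuousOn LO.weierstrassP ((LO.lattice : Set ℂ)ᶜ) :=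
    LO.differentiableOn_weierstrassP.continuousOn
  have h2 : Continuous fun t => LO.weierstrassP (s t) := h1.comp_continuous hs fun t => h t
  exact h2.div_const _

theorem wind_paths {E B : Type} [TopologicalSpace E] [TopologicalSpace B] (p : C(E, B))
    (q : B → ℂ) (e : E) (δ : Path (p e) (p e)) {z : ℂ} (w : Path z (z + 1))
    (hw : ∀ t, w t ∉ LO.lattice ∧ yy (w t) = q (δ t)) (m : ℕ) :
    ∃ (δm : Path (p e) (p e)) (wm : Path z (z + m)), cls δm = cls δ ^ m ∧
      ∀ t, wm t ∉ LO.lattice ∧ yy (wm t) = q (δm t) := by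
  induction m with
  | zero =>
    refine ⟨Path.refl _, (Path.refl z).cast rfl (by simp), ?_, fun t => ?_⟩
    · rw [pow_zero]
      rfl
    · have h1 := hw 0
      rw [w.source, δ.source] at h1
      exact h1
  | succ m ih =>
    obtain ⟨δm, wm, h1, h2⟩ := ih
    have hcont : Continuous fun x : ℂ => x + (m : ℂ) := continuous_id.add continuous_const
    refine ⟨δm.trans δ, wm.trans ((w.map hcont).cast rfl (by push_cast; ring)), ?_, fun t => ?_⟩
    · rw [pow_succ', ← h1]
      rfl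
    · rw [Path.trans_apply, Path.trans_apply]
      split_ifs with h
      · exact h2 _
      · obtain ⟨u, hu⟩ : ∃ u : I, u = ⟨2 * (t : ℝ) - 1, unitInterval.two_mul_sub_one_mem_iff.2
          ⟨(not_le.1 h).le, t.2.2⟩⟩ := ⟨_, rfl⟩
        rw [← hu]
        have h3 := hw u
        have h4 : ec (m : Eis) = (m : ℂ) := map_natCast ec m
        change w u + (m : ℂ) ∉ LO.lattice ∧ yy (w u + (m : ℂ)) = q (δ u)
        rw [← h4, yy_add]
        exact ⟨fun h5 => h3.1 (by simpa using sub_mem h5 (ec_mem (m : Eis))), h3.2⟩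

theorem wind {E B : Type} [TopologicalSpace E] [TopologicalSpace B] (p : C(E, B))
    (hp : IsCoveringMap p) {X Y : E → ℂ} (hX : Continuous X)
    (hXY : ∀ z, Y z ^ 2 + Y z = X z ^ 3) (hX0 : ∀ z, X z ≠ 0) (q : B → ℂ)
    (hq : ∀ e, Y e = q (p e)) (e : E) (δ : Path (p e) (p e)) {z : ℂ} (w : Path z (z + 1))
    (hw : ∀ t, w t ∉ LO.lattice ∧ yy (w t) = q (δ t)) (k : FundamentalGroup E e) (m : ℕ)
    (hk : FundamentalGroup.map p e k = cls δ ^ m) :
    ∃ (γ : Path e e) (s : C(I, ℂ)) (ξ : ℂ), ξ ≠ 0 ∧ cls γ = k ∧ IsLift X Y γ s ∧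
      s 1 - s 0 = m * ξ := by
  obtain ⟨δm, wm, h1, h2⟩ := wind_paths p q e δ w hw m
  obtain ⟨γ, hγ, h3⟩ := rep_lift p hp e k δm (hk.trans h1.symm)
  have hY : ∀ t, Y (γ t) = yy (wm t) := fun t => by rw [hq, h3, (h2 t).2]
  have hX3 : ∀ t, X (γ t) ^ 3 = xx (wm t) ^ 3 := fun t => by rw [← hXY, hY, curve (h2 t).1]
  have hxx : ∀ t, xx (wm t) ≠ 0 := fun t h => hX0 (γ t) (by
    have h4 := hX3 t
    rw [h] at h4
    simpa using h4)
  obtain ⟨j, hj⟩ := cube_root (u := X (γ 0) / xx (wm 0)) (by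
    rw [div_pow, hX3, div_self (pow_ne_zero 3 (hxx 0))])
  have hw0 : (MPd9f52e.w ^ j : ℂ) ≠ 0 := by
    intro h
    have h5 : (MPd9f52e.w ^ j) ^ 3 = 1 := by rw [← pow_mul, mul_comm, pow_mul, w_pow_three, one_pow]
    rw [h] at h5
    norm_num at h5
  have hlat : ∀ t, MPd9f52e.w ^ j * wm t ∉ LO.lattice := fun t => lat_pow_om j (h2 t).1
  refine ⟨γ, ⟨fun t => MPd9f52e.w ^ j * wm t, continuous_const.mul wm.continuous⟩, MPd9f52e.w ^ j, hw0, hγ,
    fun t => ⟨hlat t, ?_, ?_⟩, ?_⟩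
  · change xx (MPd9f52e.w ^ j * wm t) = X (γ t)
    have hne : ∀ t, xx (MPd9f52e.w ^ j * wm t) ≠ 0 := fun t => by
      rw [xx_pow_om]
      exact mul_ne_zero hw0 (hxx t)
    have hc : Continuous fun t => X (γ t) / xx (MPd9f52e.w ^ j * wm t) :=
      (hX.comp γ.continuous).div (xx_cont_comp (continuous_const.mul wm.continuous) hlat) hne
    have h6 := cube_const hc (c := 1) (fun t => by
      rw [xx_pow_om, div_pow, mul_pow, hX3, ← pow_mul, mul_comm j 3, pow_mul, w_pow_three, one_pow,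
        one_mul, div_self (pow_ne_zero 3 (hxx t))]) t
    have h7 : X (γ 0) / xx (MPd9f52e.w ^ j * wm 0) = 1 := by
      rw [xx_pow_om, div_mul_eq_div_div_swap, hj, div_self hw0]
    rw [h7] at h6
    exact (div_eq_one_iff_eq (hne t)).1 h6 ▸ rfl
  · change yy (MPd9f52e.w ^ j * wm t) = Y (γ t)
    rw [yy_pow_om, hY]
  · change MPd9f52e.w ^ j * wm 1 - MPd9f52e.w ^ j * wm 0 = m * MPd9f52e.w ^ j
    rw [wm.source, wm.target]
    ring

end MFib
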