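import Pool.Agent.Lib.MFib.T.Tower
import Pool.Agent.Lib.MFib.T.Base
import Pool.Agent.Lib.MFib.T.Wind
import Pool.Agent.Lib.MFib.T.CovGrp

/-!
# MP_7a61d8_gt, module T.Top (size 170): T3, the subgroup `K` and the element `g`

PROOF. `exists_tower`, `base_geometry` (base point `b`), `e` with `p e = b` (`obtain ⟨e, rfl⟩`). `covering_group` with `K'` and `g' = (cls δ)⁻¹` (`g'⁻¹ k g' = cls δ * k * (cls δ)⁻¹`) gives `K_E`, `m`, `g_E` with `p_* g_E = (cls δ)⁻¹ ^ m`. `z₁ = χ e`, `K = K_E.map χ_*`, `g = χ_* g_E`.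
On `Fib Q`: `P.Y ^ 2 + P.Y = P.X ^ 3`, `P.X ≠ 0` (`sum`, `prod`, `h_ne`, `eval z Q = 1`), `P.X`, `P.Y` continuous. Let `X = P.X ∘ χ`, `Y = P.Y ∘ χ` on `E`, `Y = first coordinate ∘ p`; `X'`, `Y'` the same for `P'`, `Y' = second coordinate ∘ p`. A lift of `(X, Y) ∘ γ` is a lift of `(P.X, P.Y) ∘ (χ ∘ γ)` and
`χ_* (cls γ) = cls (γ.map χ)`, so `IsPer` gives `a₁ (χ_* (cls γ)) = s 1 - s 0`.
`a₁ = 0` on `K`: for `k ∈ K_E` there is `γ₀` with `cls γ₀ = p_* k` and constant first coordinate; `rep_lift`, `exists_const_lift`. `a₁ g ≠ 0`: `wind` for `k = g_E⁻¹`, `p_* g_E⁻¹ = cls δ ^ m`: `a₁ (χ_* g_E⁻¹) = m ξ ≠ 0` and `a₁ (g⁻¹) = - a₁ g` (additivity). `a₂`: `cls κ ∈ K'`, so there are `m' > 0`,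
`k ∈ K_E` with `p_* k = cls κ ^ m'`; `wind` with the second coordinate: `a₂ (χ_* k) = m' ξ ≠ 0`.
-/

set_option autoImplicit false

namespace MFib

private theorem S1_ne {l : ℕ} {Q : Pol l} (P : Pencil Q) (z : Fib Q) :
    MvPolynomial.eval z.1 (P.S 1) ≠ 0 := by
  intro h0
  have h1 := congrArg (MvPolynomial.eval z.1) P.prod
  rw [map_mul, map_mul, map_mul, map_pow, h0, z.2] at h1
  have h2 := P.h_ne z.1 (by rw [z.2]; exact one_ne_zero)
  rw [mul_zero, zero_mul, mul_one] at h1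
  exact pow_ne_zero 3 h2 h1.symm

private theorem pencil_curve {l : ℕ} {Q : Pol l} (P : Pencil Q) (z : Fib Q) :
    P.Y z.1 ^ 2 + P.Y z.1 = P.X z.1 ^ 3 := by
  have h1 := congrArg (MvPolynomial.eval z.1) P.prod
  have h2 := congrArg (MvPolynomial.eval z.1) P.sum
  have h3 := S1_ne P z
  rw [map_mul, map_mul, map_mul, map_pow, z.2, mul_one] at h1
  rw [map_add, map_add, map_zero] at h2
  unfold Pencil.Y Pencil.X
  generalize MvPolynomial.eval z.1 (P.S 0) = s0 at *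
  generalize MvPolynomial.eval z.1 (P.S 1) = s1 at *
  generalize MvPolynomial.eval z.1 (P.S 2) = s2 at *
  generalize MvPolynomial.eval z.1 P.h = h at *
  have h4 : s2 = -(s0 + s1) := by linear_combination h2
  rw [h4] at h1
  field_simp
  linear_combination -h1

private theorem X_ne {l : ℕ} {Q : Pol l} (P : Pencil Q) (z : Fib Q) : P.X z.1 ≠ 0 := by
  unfold Pencil.X
  have h2 := P.h_ne z.1 (by rw [z.2]; exact one_ne_zero)
  exact div_ne_zero (neg_ne_zero.2 h2) (S1_ne P z)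

private theorem X_cont {l : ℕ} {Q : Pol l} (P : Pencil Q) :
    Continuous fun z : Fib Q => P.X z.1 := by
  unfold Pencil.X
  refine Continuous.div ?_ ?_ fun z => S1_ne P z
  · exact ((MvPolynomial.continuous_eval P.h).comp continuous_subtype_val).neg
  · exact (MvPolynomial.continuous_eval (P.S 1)).comp continuous_subtype_val

theorem exists_top {l n : ℕ} {Q : Pol l} (hQ : Q.IsHomogeneous n) (hn : 0 < n) (hQ0 : Q ≠ 0)
    (P P' : Pencil Q) (hPP : Indep P P') :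
    ∃ z₁ : Fib Q, ∀ a₁ a₂ : FundamentalGroup (Fib Q) z₁ → ℂ,
      (∀ g h, a₁ (g * h) = a₁ g + a₁ h) → (∀ g h, a₂ (g * h) = a₂ g + a₂ h) →
      IsPer (fun z : Fib Q => P.X z.1) (fun z : Fib Q => P.Y z.1) z₁ a₁ →
      IsPer (fun z : Fib Q => P'.X z.1) (fun z : Fib Q => P'.Y z.1) z₁ a₂ →
      ∃ K : Subgroup (FundamentalGroup (Fib Q) z₁), K.FG ∧
        ∃ g, (∀ k ∈ K, g⁻¹ * k * g ∈ K) ∧ (∀ k ∈ K, a₁ k = 0) ∧ a₁ g ≠ 0 ∧ ∃ k ∈ K, a₂ k ≠ 0 := by
  obtain ⟨T, d, q, E, hE, p, χ, hq, hcov, hfin, hsurj, hχ⟩ := exists_tower hQ hn hQ0 P P' hPP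
  obtain ⟨b, K', δ, κ, z, z', w, w', hK', hconj, hw, hfib, hκ, hw'⟩ := base_geometry hq
  obtain ⟨e, rfl⟩ := hsurj b
  obtain ⟨KE, hKE, hKE1, ⟨m, hm, gE, hgE, hgE2⟩, hKE2⟩ :=
    covering_group p hcov e (hfin _) K' hK' (cls δ)⁻¹ (fun k hk => by
      rw [inv_inv]
      exact hconj k hk)
  refine ⟨χ e, fun a₁ a₂ ha₁ ha₂ hp₁ hp₂ => ?_⟩
  -- periods of the images of loops of `E`
  have hmapcls : ∀ γ : Path e e, FundamentalGroup.map χ e (cls γ) = cls (γ.map χ.continuous) :=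
    fun γ => rfl
  have hper₁ : ∀ (γ : Path e e) (s : C(unitInterval, ℂ)),
      IsLift (fun e => P.X (χ e).1) (fun e => P.Y (χ e).1) γ s →
      a₁ (FundamentalGroup.map χ e (cls γ)) = s 1 - s 0 := by
    intro γ s hs
    rw [hmapcls]
    exact hp₁ (γ.map χ.continuous) s fun t => hs t
  have hper₂ : ∀ (γ : Path e e) (s : C(unitInterval, ℂ)),
      IsLift (fun e => P'.X (χ e).1) (fun e => P'.Y (χ e).1) γ s →
      a₂ (FundamentalGroup.map χ e (cls γ)) = s 1 - s 0 := by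
    intro γ s hs
    rw [hmapcls]
    exact hp₂ (γ.map χ.continuous) s fun t => hs t
  have hX₁ : Continuous fun e => P.X (χ e).1 := (X_cont P).comp χ.continuous
  have hX₂ : Continuous fun e => P'.X (χ e).1 := (X_cont P').comp χ.continuous
  have ha₁inv : ∀ g, a₁ g⁻¹ = -a₁ g := by
    intro g
    have h1 := ha₁ 1 1
    have h2 := ha₁ g⁻¹ g
    rw [mul_one] at h1
    rw [inv_mul_cancel] at h2
    linear_combination -h1 - h2
  have hFG : (KE.map (FundamentalGroup.map χ e)).FG := by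
    classical
    obtain ⟨S, hS⟩ := hKE
    refine ⟨S.image (FundamentalGroup.map χ e), ?_⟩
    rw [Finset.coe_image, ← MonoidHom.map_closure, hS]
  refine ⟨KE.map (FundamentalGroup.map χ e), hFG, FundamentalGroup.map χ e gE, ?_, ?_, ?_, ?_⟩
  · rintro _ ⟨k, hk, rfl⟩
    refine ⟨gE⁻¹ * k * gE, hgE2 k hk, ?_⟩
    rw [map_mul, map_mul, map_inv]
  · rintro _ ⟨k, hk, rfl⟩
    obtain ⟨γ₀, hγ₀, hγ₀'⟩ := hfib _ (hKE1 k hk)
    obtain ⟨γ, hγ, hγ'⟩ := rep_lift p hcov e k γ₀ hγ₀.symm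
    obtain ⟨s, hs, hs'⟩ := exists_const_lift (X := fun e => P.X (χ e).1)
      (Y := fun e => P.Y (χ e).1) hX₁ (fun e => pencil_curve P (χ e)) (γ : C(unitInterval, E))
      (by
        intro t
        show P.Y (χ (γ t)).1 = P.Y (χ (γ 0)).1
        rw [(hχ _).1, (hχ _).1, hγ', hγ', hγ₀', hγ₀'])
    rw [← hγ, hper₁ γ s hs, hs', sub_self]
  · obtain ⟨γ, s, ξ, hξ, hγ, hs, hs'⟩ := wind p hcov (X := fun e => P.X (χ e).1)
      (Y := fun e => P.Y (χ e).1) hX₁ (fun e => pencil_curve P (χ e)) (fun e => X_ne P (χ e))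
      (fun b => b.1.1) (fun e => (hχ e).1) e δ w hw gE⁻¹ m (by
        rw [map_inv, hgE, inv_pow, inv_inv])
    have h1 : a₁ (FundamentalGroup.map χ e gE⁻¹) = m * ξ := by
      rw [← hγ, hper₁ γ s hs, hs']
    rw [map_inv, ha₁inv] at h1
    intro h0
    rw [h0, neg_zero] at h1
    have h2 : (m : ℂ) ≠ 0 := by exact_mod_cast hm.ne'
    exact mul_ne_zero h2 hξ h1.symm
  · obtain ⟨m', hm', k, hk, hk'⟩ := hKE2 _ hκ
    obtain ⟨γ, s, ξ, hξ, hγ, hs, hs'⟩ := wind p hcov (X := fun e => P'.X (χ e).1)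
      (Y := fun e => P'.Y (χ e).1) hX₂ (fun e => pencil_curve P' (χ e)) (fun e => X_ne P' (χ e))
      (fun b => b.1.2) (fun e => (hχ e).2) e κ w' hw' k m' hk'
    refine ⟨_, ⟨k, hk, rfl⟩, ?_⟩
    rw [← hγ, hper₂ γ s hs, hs']
    have h2 : (m' : ℂ) ≠ 0 := by exact_mod_cast hm'.ne'
    exact mul_ne_zero h2 hξ

end MFib
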