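import Pool.Agent.Lib.MFib.Defs

/-!
# MP_7a61d8_gt, topological part: definitions

`RR = ℂ[s][x]` (inner variable `s`, outer variable `x`), `KK` its field of fractions, `ev s x : RR →+* ℂ` the evaluation.
`Bq T q` is the base `{(s, x) | s ∉ T, q_s(x) ≠ 0}`, `q` a family of polynomials.
-/

set_option autoImplicit false

namespace MFib

open Polynomial

/-- the class of a loop -/
abbrev cls {X : Type*} [TopologicalSpace X] {x : X} (γ : Path x x) : FundamentalGroup X x :=
  FundamentalGroup.fromPath (Path.Homotopic.Quotient.mk γ)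

/-- `ℂ[s][x]` -/
abbrev RR : Type := Polynomial (Polynomial ℂ)

/-- `ℂ(s, x)` -/
abbrev KK : Type := FractionRing RR

/-- evaluation at `(s, x)` -/
noncomputable def ev (s x : ℂ) : RR →+* ℂ :=
  (Polynomial.evalRingHom x).comp (Polynomial.mapRingHom (Polynomial.evalRingHom s))

theorem ev_apply (s x : ℂ) (D : RR) : ev s x D = (D.map (Polynomial.evalRingHom s)).eval x := rfl

/-- constants -/
noncomputable def kc : ℂ →+* RR := (Polynomial.C : Polynomial ℂ →+* RR).comp Polynomial.C

theorem ev_kc (s x c : ℂ) : ev s x (kc c) = c := by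
  simp [ev, kc]

theorem ev_CX (s x : ℂ) : ev s x (Polynomial.C Polynomial.X) = s := by
  simp [ev]

theorem ev_X (s x : ℂ) : ev s x Polynomial.X = x := by
  simp [ev]

/-- the base of the tower -/
def Bq (T : Set ℂ) (q : ℂ → Polynomial ℂ) : Set (ℂ × ℂ) := {b | b.1 ∉ T ∧ (q b.1).eval b.2 ≠ 0}

/-- `q` is a family of monic separable polynomials of degree `d` over the complement of `T`, with continuous coefficients -/
structure GoodFam (T : Set ℂ) (d : ℕ) (q : ℂ → Polynomial ℂ) : Prop where
  fin : T.Finite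
  monic : ∀ s ∉ T, (q s).Monic
  deg : ∀ s ∉ T, (q s).natDegree = d
  sep : ∀ s ∉ T, (q s).Separable
  cont : ∀ k, ContinuousOn (fun s => (q s).coeff k) Tᶜ

end MFib
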