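import Pool.Agent.Lib.MFib.T.Defs

/-!
# MP_7a61d8_gt, module T.Dom (size 200): independent pencils are algebraically independent

`λ = S0 / S1`, `μ = T0 / T1`, `W_i = S1 ∂_i S0 - S0 ∂_i S1 = S1² ∂_i λ`, `V_i = T1 ∂_i T0 - T0 ∂_i T1 = T1² ∂_i μ`. If `D(λ(z), μ(z)) = 0` for all `z` with `S1 T1 E ≠ 0` then `D = 0`.

PROOF. Write `D₁` for the derivative of `D` with respect to the inner variable (coefficientwise) and `D₂ = derivative D`.
(1) Chain rule: if `a, b : ℂ → ℂ` have derivatives `a', b'` at `t` then `t ↦ ev (a t) (b t) D` has derivative `ev (a t) (b t) D₁ * a' + ev (a t) (b t) D₂ * b'` (induction on `D`: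
sums and monomials `C p * X ^ n`, `Polynomial.hasDerivAt`). (2) For `z` and `P ∈ Pol l` the function `t ↦ eval (z + t e_i) P` has derivative `eval z (pderiv i P)` at `0` (induction on `P`).
(3) Let `J = W_i V_j - W_j V_i`. If `D(λ, μ) = 0` at all points with `S1 T1 E ≠ 0` then at such a point `z` the function `t ↦ D(λ, μ)(z + t e_k)` vanishes near `t = 0`
(`S1 T1 E ≠ 0` is an open condition), so `D₁ W_k / S1² + D₂ V_k / T1² = 0` for all `k`; with `k = i, j`: if moreover `J(z) ≠ 0` then `D₁(λ, μ) = D₂(λ, μ) = 0` at `z`. So the hypothesis holds for `D₁`, `D₂` with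
`E` replaced by `E J` (nonzero).
(4) Induction on `n`, for all `E ≠ 0`: if `natDegree D ≤ n` and `D(λ, μ) = 0` where `S1 T1 E ≠ 0`, then `D = 0`. `n = 0`: `D = C p`, and `p(λ) = 0`; a second induction on the degree of `p`: `p' (λ) = 0` so `p' = 0`,
`p` is constant (characteristic `0`), and it is `0` because there is a point with `S1 T1 E ≠ 0` (`MvPolynomial.funext`; `S1 ≠ 0` and `T1 ≠ 0` since otherwise `J = 0`). `n + 1`: `D₂` has degree `≤ n`, so
`D₂ = 0` and `natDegree D = 0` (`Polynomial.natDegree_eq_zero_of_derivative_eq_zero`).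
-/

set_option autoImplicit false

namespace MFib

open MvPolynomial

/-- the linear map `(t, u) ↦ a t + b u` -/
private noncomputable def domL (a b : ℂ) : (ℂ × ℂ) →L[ℂ] ℂ :=
  a • ContinuousLinearMap.fst ℂ ℂ ℂ + b • ContinuousLinearMap.snd ℂ ℂ ℂ

private theorem domL_apply (a b : ℂ) (t : ℂ × ℂ) : domL a b t = a * t.1 + b * t.2 := by
  simp [domL]

/-- the moving point `z + t e_i + u e_j` -/
private noncomputable def domM {l : ℕ} (z : Fin l → ℂ) (i j : Fin l) (t : ℂ × ℂ) : Fin l → ℂ :=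
  fun k => z k + t.1 * (Pi.single i (1 : ℂ) : Fin l → ℂ) k + t.2 * (Pi.single j (1 : ℂ) : Fin l → ℂ) k

private theorem domM_zero {l : ℕ} (z : Fin l → ℂ) (i j : Fin l) : domM z i j 0 = z := by
  funext k
  simp [domM]

private theorem domM_cont {l : ℕ} (z : Fin l → ℂ) (i j : Fin l) : Continuous (domM z i j) := by
  unfold domM
  fun_prop

private theorem dom_lin (x a b : ℂ) : HasStrictFDerivAt (fun t : ℂ × ℂ => x + t.1 * a + t.2 * b) (domL a b) 0 := by
  have h := (domL a b).hasStrictFDerivAt (x := (0 : ℂ × ℂ))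
  have h2 := h.const_add x
  refine h2.congr_of_eventuallyEq (Filter.Eventually.of_forall fun t => ?_)
  change x + domL a b t = _
  rw [domL_apply]
  ring

private theorem dom_strict {l : ℕ} (z : Fin l → ℂ) (i j : Fin l) (P : Pol l) :
    HasStrictFDerivAt (fun t => eval (domM z i j t) P) (domL (eval z (pderiv i P)) (eval z (pderiv j P))) 0 := by
  classical
  induction P using MvPolynomial.induction_on with
  | C a =>
    have h := hasStrictFDerivAt_const (𝕜 := ℂ) a (0 : ℂ × ℂ)
    simp only [eval_C, pderiv_C, map_zero]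
    have h2 : domL 0 0 = 0 := by
      apply ContinuousLinearMap.ext
      intro t
      rw [domL_apply, zero_mul, zero_mul, add_zero]
      rfl
    rw [h2]
    exact h
  | add p q hp hq =>
    have h := hp.add hq
    simp only [map_add]
    refine (h.congr_fderiv ?_)
    apply ContinuousLinearMap.ext
    intro t
    simp only [_root_.add_apply, domL_apply]
    ring
  | mul_X p k hp =>
    have h1 := dom_lin (z k) ((Pi.single i (1 : ℂ) : Fin l → ℂ) k) ((Pi.single j (1 : ℂ) : Fin l → ℂ) k)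
    have h := hp.mul h1
    simp only [map_mul, eval_X]
    refine (h.congr_fderiv ?_)
    apply ContinuousLinearMap.ext
    intro t
    simp only [_root_.add_apply, _root_.smul_apply, domL_apply, smul_eq_mul, domM_zero,
      pderiv_mul, pderiv_X, map_add, map_mul, eval_X, Prod.fst_zero, Prod.snd_zero]
    have h3 : ∀ m : Fin l, eval z ((Pi.single m (1 : Pol l) : Fin l → Pol l) k) = (Pi.single m (1 : ℂ) : Fin l → ℂ) k := by
      intro m
      by_cases hm : k = m
      · subst hm
        simp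
      · simp [hm]
    rw [h3, h3]
    ring

private theorem dom_quot {l : ℕ} (z : Fin l → ℂ) (i j : Fin l) (P Q : Pol l) (hQ : eval z Q ≠ 0) :
    HasStrictFDerivAt (fun t => eval (domM z i j t) P / eval (domM z i j t) Q)
      (domL (eval z (Q * pderiv i P - P * pderiv i Q) / eval z Q ^ 2) (eval z (Q * pderiv j P - P * pderiv j Q) / eval z Q ^ 2)) 0 := by
  have h1 := dom_strict z i j P
  have h2 := dom_strict z i j Q
  have hQ' : eval (domM z i j 0) Q ≠ 0 := by rwa [domM_zero]
  have h3 := (hasStrictDerivAt_inv hQ').comp_hasStrictFDerivAt (0 : ℂ × ℂ) h2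
  have h4 := h1.mul h3
  refine (h4.congr_fderiv ?_).congr_of_eventuallyEq (Filter.Eventually.of_forall fun t => ?_)
  · apply ContinuousLinearMap.ext
    intro t
    simp only [_root_.add_apply, _root_.smul_apply, domL_apply, smul_eq_mul, domM_zero,
      map_sub, map_mul, Function.comp]
    field_simp
    ring
  · exact (div_eq_mul_inv (eval (domM z i j t) P) (eval (domM z i j t) Q)).symm

private theorem dom_zero {a b : ℂ} {D : RR} (h : ∀ᶠ q : ℂ × ℂ in nhds (a, b), ev q.1 q.2 D = 0) : D = 0 := by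
  rw [nhds_prod_eq] at h
  have h1 := h.curry
  have h2 : ∀ᶠ s in nhds a, D.map (Polynomial.evalRingHom s) = 0 := by
    filter_upwards [h1] with s hs
    apply Polynomial.eq_zero_of_infinite_isRoot
    refine (infinite_of_mem_nhds b hs).mono fun x hx => ?_
    exact hx
  ext1 n
  rw [Polynomial.coeff_zero]
  apply Polynomial.eq_zero_of_infinite_isRoot
  refine (infinite_of_mem_nhds a h2).mono fun s hs => ?_
  have h3 := congrArg (fun P => Polynomial.coeff P n) (show D.map (Polynomial.evalRingHom s) = 0 from hs)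
  simpa [Polynomial.coeff_map] using h3

theorem dom_indep {l : ℕ} (S0 S1 T0 T1 E : Pol l) (hE : E ≠ 0) (i j : Fin l)
    (hJ : (S1 * pderiv i S0 - S0 * pderiv i S1) * (T1 * pderiv j T0 - T0 * pderiv j T1) -
      (S1 * pderiv j S0 - S0 * pderiv j S1) * (T1 * pderiv i T0 - T0 * pderiv i T1) ≠ 0)
    (D : RR) (hD : ∀ z, eval z S1 ≠ 0 → eval z T1 ≠ 0 → eval z E ≠ 0 →
      ev (eval z S0 / eval z S1) (eval z T0 / eval z T1) D = 0) : D = 0 := by
  classical
  have hS : S1 ≠ 0 := by
    rintro rfl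
    apply hJ
    simp
  have hT : T1 ≠ 0 := by
    rintro rfl
    apply hJ
    simp
  obtain ⟨z, hz⟩ : ∃ z, eval z (S1 * T1 * E * ((S1 * pderiv i S0 - S0 * pderiv i S1) * (T1 * pderiv j T0 - T0 * pderiv j T1) -
      (S1 * pderiv j S0 - S0 * pderiv j S1) * (T1 * pderiv i T0 - T0 * pderiv i T1))) ≠ 0 := by
    by_contra hcon
    push Not at hcon
    have h0 : S1 * T1 * E * ((S1 * pderiv i S0 - S0 * pderiv i S1) * (T1 * pderiv j T0 - T0 * pderiv j T1) -
      (S1 * pderiv j S0 - S0 * pderiv j S1) * (T1 * pderiv i T0 - T0 * pderiv i T1)) = 0 := by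
      apply MvPolynomial.funext
      intro z
      rw [hcon z, map_zero]
    exact mul_ne_zero (mul_ne_zero (mul_ne_zero hS hT) hE) hJ h0
  rw [map_mul, map_mul, map_mul] at hz
  have hz4 := right_ne_zero_of_mul hz
  have hz3 := right_ne_zero_of_mul (left_ne_zero_of_mul hz)
  have hz2 := right_ne_zero_of_mul (left_ne_zero_of_mul (left_ne_zero_of_mul hz))
  have hz1 := left_ne_zero_of_mul (left_ne_zero_of_mul (left_ne_zero_of_mul hz))
  have hF := (dom_quot z i j S0 S1 hz1).prodMk (dom_quot z i j T0 T1 hz2)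
  have hmap := hF.map_nhds_eq_of_surj (by
    rw [LinearMap.range_eq_top]
    rintro ⟨a, b⟩
    obtain ⟨l1, hl1⟩ : ∃ x, x = eval z (S1 * pderiv i S0 - S0 * pderiv i S1) := ⟨_, rfl⟩
    obtain ⟨l2, hl2⟩ : ∃ x, x = eval z (S1 * pderiv j S0 - S0 * pderiv j S1) := ⟨_, rfl⟩
    obtain ⟨m1, hm1⟩ : ∃ x, x = eval z (T1 * pderiv i T0 - T0 * pderiv i T1) := ⟨_, rfl⟩
    obtain ⟨m2, hm2⟩ : ∃ x, x = eval z (T1 * pderiv j T0 - T0 * pderiv j T1) := ⟨_, rfl⟩
    have hdet : l1 * m2 - l2 * m1 ≠ 0 := by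
      rw [map_sub, map_mul, map_mul, ← hl1, ← hl2, ← hm1, ← hm2] at hz4
      exact hz4
    rw [← hl1, ← hl2, ← hm1, ← hm2]
    obtain ⟨x, hx⟩ : ∃ x, x = eval z S1 := ⟨_, rfl⟩
    obtain ⟨y, hy⟩ : ∃ y, y = eval z T1 := ⟨_, rfl⟩
    rw [← hx] at hz1
    rw [← hy] at hz2
    rw [← hx, ← hy]
    refine ⟨((a * x ^ 2 * m2 - b * y ^ 2 * l2) / (l1 * m2 - l2 * m1), (l1 * (b * y ^ 2) - m1 * (a * x ^ 2)) / (l1 * m2 - l2 * m1)), ?_⟩
    apply Prod.ext
    · change domL (l1 / x ^ 2) (l2 / x ^ 2) _ = a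
      rw [domL_apply, div_mul_div_comm, div_mul_div_comm, ← add_div, div_eq_iff (mul_ne_zero (pow_ne_zero 2 hz1) hdet)]
      ring
    · change domL (m1 / y ^ 2) (m2 / y ^ 2) _ = b
      rw [domL_apply, div_mul_div_comm, div_mul_div_comm, ← add_div, div_eq_iff (mul_ne_zero (pow_ne_zero 2 hz2) hdet)]
      ring)
  have hgood : ∀ᶠ t : ℂ × ℂ in nhds 0, eval (domM z i j t) S1 ≠ 0 ∧ eval (domM z i j t) T1 ≠ 0 ∧ eval (domM z i j t) E ≠ 0 := by
    have hc : ∀ P : Pol l, ContinuousAt (fun t => eval (domM z i j t) P) 0 := fun P =>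
      ((MvPolynomial.continuous_eval P).comp (domM_cont z i j)).continuousAt
    have h1 := (hc S1).eventually_ne (by rwa [domM_zero] : eval (domM z i j 0) S1 ≠ 0)
    have h2 := (hc T1).eventually_ne (by rwa [domM_zero] : eval (domM z i j 0) T1 ≠ 0)
    have h3 := (hc E).eventually_ne (by rwa [domM_zero] : eval (domM z i j 0) E ≠ 0)
    filter_upwards [h1, h2, h3] with t a b c
    exact ⟨a, b, c⟩
  have hev : ∀ᶠ q : ℂ × ℂ in Filter.map (fun t => (eval (domM z i j t) S0 / eval (domM z i j t) S1,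
      eval (domM z i j t) T0 / eval (domM z i j t) T1)) (nhds (0 : ℂ × ℂ)), ev q.1 q.2 D = 0 := by
    rw [Filter.eventually_map]
    filter_upwards [hgood] with t ht
    exact hD _ ht.1 ht.2.1 ht.2.2
  rw [hmap] at hev
  exact dom_zero hev

end MFib
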