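import Pool.Agent.Lib.MFib.T.Defs

/-!
# MP_7a61d8_gt, module T.Dsc (size 200): a family of separable polynomials which contains the zeros of `Δ`

PROOF. `k = FractionRing ℂ[X]`. In `k[X]` the image of `Δ` is nonzero; let `D₀` be its squarefree part: `D₀` squarefree, `D₀ ∣ Δ`, `Δ ∣ D₀ ^ N` (`UniqueFactorizationMonoid.radical`, `radical_dvd_self`,
`squarefree_radical`, and `Δ ∣ radical ^ N`; or take the product of the distinct normalised irreducible factors). `D₀` is separable (characteristic `0`, `Polynomial.separable` of squarefree over a perfect field: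
`PerfectField.separable_iff_squarefree`). Clear denominators: `D = c₀ D₀ ∈ ℂ[X][X]` (`IsLocalization.integerNormalization`), `D ≠ 0`; `a D + b D' = C R` with `R ∈ ℂ[X]`, `R ≠ 0`; `C c * D ^ N = Δ * F` with `c ∈ ℂ[X]`, `c ≠ 0`, `F ∈ ℂ[X][X]`.
`T` = the zeros of `D.leadingCoeff * R * c` (finite), `d = D.natDegree`, `q s = C (D.leadingCoeff.eval s)⁻¹ * D.map (evalRingHom s)`. For `s ∉ T`: degree `d`, monic; separable by the mapped Bezout identity; if
`ev s x Δ = 0` then `c(s) D_s(x) ^ N = 0`, so `D_s(x) = 0`. The coefficients of `q s` are quotients of polynomials in `s` with denominator `≠ 0` on the complement of `T`.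
To have a given finite set inside `T` enlarge `T` (all properties are kept).
-/

set_option autoImplicit false

namespace MFib

open Polynomial

private theorem clear (K : Type) [Field K] [Algebra ℂ[X] K] [IsFractionRing ℂ[X] K] (p : K[X]) :
    ∃ (b : ℂ[X]) (P : RR), b ≠ 0 ∧ P.map (algebraMap ℂ[X] K) = C (algebraMap ℂ[X] K b) * p := by
  obtain ⟨b, hb, h⟩ := IsLocalization.integerNormalization_spec (nonZeroDivisors ℂ[X]) p
  refine ⟨b, _, nonZeroDivisors.ne_zero hb, h.trans ?_⟩
  rw [← IsScalarTower.algebraMap_smul K b p, Polynomial.smul_eq_C_mul]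

private theorem exists_alg (Δ : RR) (hΔ : Δ ≠ 0) : ∃ (D A B G : RR) (R c : ℂ[X]) (N : ℕ), D ≠ 0 ∧ R ≠ 0 ∧ c ≠ 0 ∧
    A * D + B * derivative D = C R ∧ C c * D ^ N = Δ * G := by
  classical
  let K : Type := FractionRing ℂ[X]
  let φ : ℂ[X] →+* K := algebraMap ℂ[X] K
  have hφ : Function.Injective φ := IsFractionRing.injective ℂ[X] K
  have hφ' : Function.Injective (Polynomial.map φ) := Polynomial.map_injective φ hφ
  have hΔk : Δ.map φ ≠ 0 := fun h => hΔ (hφ' (by rw [h, Polynomial.map_zero]))
  obtain ⟨N, G₀, hG₀⟩ := UniqueFactorizationMonoid.exists_dvd_radical_self_pow hΔk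
  have hsep : (UniqueFactorizationMonoid.radical (Δ.map φ)).Separable :=
    PerfectField.separable_iff_squarefree.2 UniqueFactorizationMonoid.squarefree_radical
  have hne : UniqueFactorizationMonoid.radical (Δ.map φ) ≠ 0 := UniqueFactorizationMonoid.radical_ne_zero
  set D₀ := UniqueFactorizationMonoid.radical (Δ.map φ) with hD₀
  obtain ⟨b, D, hb, hD⟩ := clear K D₀
  have hφb : φ b ≠ 0 := fun h => hb (hφ (by rw [h, map_zero]))
  obtain ⟨A₀, B₀, hAB⟩ := hsep
  obtain ⟨u, A, hu, hA⟩ := clear K A₀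
  obtain ⟨v, B, hv, hB⟩ := clear K B₀
  obtain ⟨c, G, hc, hG⟩ := clear K G₀
  have hDne : D ≠ 0 := by
    rintro rfl
    rw [Polynomial.map_zero] at hD
    exact mul_ne_zero (C_ne_zero.2 hφb) hne hD.symm
  refine ⟨D, C v * A, C u * B, C (b ^ N) * G, u * v * b, c, N, hDne,
    mul_ne_zero (mul_ne_zero hu hv) hb, hc, ?_, ?_⟩
  · apply hφ'
    simp only [Polynomial.map_add, Polynomial.map_mul, Polynomial.map_C, map_mul, ← Polynomial.derivative_map]
    rw [hA, hB, hD]
    simp only [derivative_mul, derivative_C, zero_mul, zero_add]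
    linear_combination (C (φ u) * C (φ v) * C (φ b)) * hAB
  · apply hφ'
    simp only [Polynomial.map_mul, Polynomial.map_pow, Polynomial.map_C, map_pow]
    rw [hG, hD, mul_pow, hG₀]
    ring

theorem exists_discr (Δ : RR) (hΔ : Δ ≠ 0) (T₀ : Set ℂ) (hT₀ : T₀.Finite) :
    ∃ (T : Set ℂ) (d : ℕ) (q : ℂ → Polynomial ℂ), T₀ ⊆ T ∧ GoodFam T d q ∧
      ∀ s ∉ T, ∀ x, ev s x Δ = 0 → (q s).eval x = 0 := by
  classical
  obtain ⟨D, A, B, G, R, c, N, hD, hR, hc, hAB, hG⟩ := exists_alg Δ hΔ
  have hL : D.leadingCoeff ≠ 0 := leadingCoeff_ne_zero.2 hD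
  have hM : D.leadingCoeff * R * c ≠ 0 := mul_ne_zero (mul_ne_zero hL hR) hc
  refine ⟨T₀ ∪ ((D.leadingCoeff * R * c).roots.toFinset : Set ℂ), D.natDegree,
    fun s => C (D.leadingCoeff.eval s)⁻¹ * D.map (evalRingHom s), Set.subset_union_left, ?_, ?_⟩
  · have key : ∀ s, s ∉ T₀ ∪ ((D.leadingCoeff * R * c).roots.toFinset : Set ℂ) →
        D.leadingCoeff.eval s ≠ 0 ∧ R.eval s ≠ 0 ∧ c.eval s ≠ 0 := by
      intro s hs
      have h : (D.leadingCoeff * R * c).eval s ≠ 0 := by
        intro h0
        apply hs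
        right
        simp only [Finset.mem_coe, Multiset.mem_toFinset]
        exact (mem_roots hM).2 h0
      rw [eval_mul, eval_mul] at h
      exact ⟨fun h0 => h (by rw [h0]; ring), fun h0 => h (by rw [h0]; ring), fun h0 => h (by rw [h0]; ring)⟩
    have hdeg : ∀ s, s ∉ T₀ ∪ ((D.leadingCoeff * R * c).roots.toFinset : Set ℂ) →
        (D.map (evalRingHom s)).natDegree = D.natDegree := fun s hs =>
      natDegree_map_of_leadingCoeff_ne_zero _ (by simpa using (key s hs).1)
    refine ⟨hT₀.union (Finset.finite_toSet _), ?_, ?_, ?_, ?_⟩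
    · intro s hs
      apply monic_C_mul_of_mul_leadingCoeff_eq_one
      have h1 : (D.map (evalRingHom s)).leadingCoeff = D.leadingCoeff.eval s := by
        rw [leadingCoeff, hdeg s hs, coeff_map]
        rfl
      rw [h1]
      exact inv_mul_cancel₀ (key s hs).1
    · intro s hs
      rw [natDegree_C_mul (inv_ne_zero (key s hs).1), hdeg s hs]
    · intro s hs
      have h2 := congrArg (Polynomial.map (evalRingHom s)) hAB
      simp only [Polynomial.map_add, Polynomial.map_mul, Polynomial.map_C, ← Polynomial.derivative_map,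
        coe_evalRingHom] at h2
      have hk := key s hs
      refine ⟨C (D.leadingCoeff.eval s * (R.eval s)⁻¹) * A.map (evalRingHom s),
        C (D.leadingCoeff.eval s * (R.eval s)⁻¹) * B.map (evalRingHom s), ?_⟩
      have e1 : (C (D.leadingCoeff.eval s) : ℂ[X]) * C (D.leadingCoeff.eval s)⁻¹ = 1 := by
        rw [← C_mul, mul_inv_cancel₀ hk.1, C_1]
      have e2 : (C (R.eval s) : ℂ[X]) * C (R.eval s)⁻¹ = 1 := by
        rw [← C_mul, mul_inv_cancel₀ hk.2.1, C_1]
      simp only [derivative_mul, derivative_C, zero_mul, zero_add, C_mul]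
      linear_combination (C (D.leadingCoeff.eval s) * C (D.leadingCoeff.eval s)⁻¹ * C (R.eval s)⁻¹) * h2 +
        (C (R.eval s) * C (R.eval s)⁻¹) * e1 + e2
    · intro k s hs
      simp only [coeff_C_mul, coeff_map, coe_evalRingHom]
      exact (((D.leadingCoeff.continuous.continuousAt).inv₀ (key s hs).1).mul
        (D.coeff k).continuous.continuousAt).continuousWithinAt
  · intro s hs x hx
    have h3 := congrArg (ev s x) hG
    rw [map_mul, map_mul, hx, zero_mul, map_pow] at h3
    have hcs : c.eval s ≠ 0 := by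
      intro h0
      apply hs
      right
      simp only [Finset.mem_coe, Multiset.mem_toFinset]
      refine (mem_roots hM).2 ?_
      change (D.leadingCoeff * R * c).eval s = 0
      rw [eval_mul, h0, mul_zero]
    have h4 : ev s x (C c) = c.eval s := by simp [ev]
    rw [h4] at h3
    have h5 := eq_zero_of_pow_eq_zero ((mul_eq_zero.1 h3).resolve_left hcs)
    rw [eval_mul]
    rw [ev_apply] at h5
    rw [h5, mul_zero]

end MFib
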