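import Pool.Agent.Lib.MFib.T.Dom

/-!
# MP_7a61d8_gt, module T.Gen (size 200): a generic point of the Milnor fibre over `(λ, μ)`

PROOF. In `A = MvPolynomial (Fin l) RR` let `f₁ = Q - 1`, `f₂ = S0 - s S1`, `f₃ = T0 - x T1` (`Q`, … mapped by `kc`, `s = C (C X)`, `x = C X`), `I = (f₁, f₂, f₃)`.
(1) If `D ∈ RR` and `C D ∈ I` then `D = 0`: let `z` with `Q(z) ≠ 0` (so `S1(z), T1(z) ≠ 0`). Choose `c` with `c ^ n = Q(z)` (`n > 0`), `z' = z / c`: `Q(z') = 1`, and `S0(z') / S1(z') = S0(z) / S1(z)` since both are homogeneous of the same degree,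
the same for `T`. The ring hom `A → ℂ` which is `ev (λ(z)) (μ(z))` on `RR` and maps `X k` to `z' k` kills `f₁, f₂, f₃`, so `ev (λ(z)) (μ(z)) D = 0`. By `dom_indep` (`E = Q`) `D = 0`.
(2) `A' = MvPolynomial (Fin l) KK` is the localisation of `A` at `RR - 0` (`MvPolynomial.isLocalization`), so the extension `I'` of `I` is proper (`IsLocalization.map_algebraMap_ne_top_iff_disjoint`). Let `m ⊇ I'` be maximal, `L = A' / m`,
`v k` the class of `X k`. `L` is a field, finite over `KK`: it is integral by the Nullstellensatz (`MvPolynomial.quotient_mk_comp_C_isIntegral_of_isJacobsonRing`, a field is a Jacobson ring) and of finite type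
(`Algebra.IsIntegral.finite`). The relations hold because `f₁, f₂, f₃` are in `m`.
-/

set_option autoImplicit false

namespace MFib

open MvPolynomial

/-- constants in an extension of `KK` -/
noncomputable def kL (L : Type) [Field L] [Algebra KK L] : ℂ →+* L :=
  (algebraMap KK L).comp ((algebraMap RR KK).comp kc)

private theorem eval_smul_hom' {l d : ℕ} {P : Pol l} (h : P.IsHomogeneous d) (t : ℂ) (z : Fin l → ℂ) :
    eval (fun i => t * z i) P = t ^ d * eval z P := by
  rw [eval_eq', eval_eq', Finset.mul_sum]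
  refine Finset.sum_congr rfl fun m hm => ?_
  have h1 : ∑ i, m i = d := by
    have h2 := h (mem_support_iff.1 hm)
    rw [← h2, Finsupp.weight_apply]
    simp [Finsupp.sum_fintype]
  rw [← h1]
  simp only [mul_pow, Finset.prod_mul_distrib, Finset.prod_pow_eq_pow_sum]
  ring

/-- the three relations -/
private noncomputable def rel {l : ℕ} (Q S0 S1 T0 T1 : Pol l) : Fin 3 → MvPolynomial (Fin l) RR :=
  ![map kc Q - 1, map kc S0 - C (Polynomial.C Polynomial.X : RR) * map kc S1,
    map kc T0 - C (Polynomial.X : RR) * map kc T1]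

private theorem elim {l n d e : ℕ} (Q S0 S1 T0 T1 : Pol l) (hQ : Q.IsHomogeneous n) (hn : 0 < n)
    (hQ0 : Q ≠ 0) (hS0 : S0.IsHomogeneous d) (hS1 : S1.IsHomogeneous d) (hT0 : T0.IsHomogeneous e)
    (hT1 : T1.IsHomogeneous e) (i j : Fin l)
    (hJ : (S1 * pderiv i S0 - S0 * pderiv i S1) * (T1 * pderiv j T0 - T0 * pderiv j T1) -
      (S1 * pderiv j S0 - S0 * pderiv j S1) * (T1 * pderiv i T0 - T0 * pderiv i T1) ≠ 0)
    (D : RR) (hD : C D ∈ Ideal.span (Set.range (rel Q S0 S1 T0 T1))) : D = 0 := by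
  refine dom_indep S0 S1 T0 T1 Q hQ0 i j hJ D fun z h1 h2 h3 => ?_
  obtain ⟨c, hc⟩ := IsAlgClosed.exists_pow_nat_eq (eval z Q) hn
  have hc0 : c ≠ 0 := by
    rintro rfl
    rw [zero_pow hn.ne'] at hc
    exact h3 hc.symm
  let lam : ℂ := eval z S0 / eval z S1
  let mu : ℂ := eval z T0 / eval z T1
  let z' : Fin l → ℂ := fun i => c⁻¹ * z i
  let ψ : MvPolynomial (Fin l) RR →+* ℂ := eval₂Hom (ev lam mu) z'
  have hψ : ∀ P : Pol l, ψ (map kc P) = eval z' P := by
    intro P
    simp only [ψ, coe_eval₂Hom, eval₂_map]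
    rw [MvPolynomial.eval]
    change eval₂ _ _ _ = eval₂ _ _ _
    congr 1
    ext x
    exact ev_kc lam mu x
  have hψC : ∀ r : RR, ψ (C r) = ev lam mu r := fun r => by simp [ψ]
  have hQz : eval z' Q = 1 := by
    rw [eval_smul_hom' hQ, ← hc, inv_pow, inv_mul_cancel₀ (pow_ne_zero _ hc0)]
  have hSz : eval z' S0 = lam * eval z' S1 := by
    rw [eval_smul_hom' hS0, eval_smul_hom' hS1]
    simp only [lam]
    field_simp
  have hTz : eval z' T0 = mu * eval z' T1 := by
    rw [eval_smul_hom' hT0, eval_smul_hom' hT1]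
    simp only [mu]
    field_simp
  have hker : Ideal.span (Set.range (rel Q S0 S1 T0 T1)) ≤ RingHom.ker ψ := by
    rw [Ideal.span_le]
    rintro _ ⟨k, rfl⟩
    rw [SetLike.mem_coe, RingHom.mem_ker]
    fin_cases k
    · simp [rel, hψ, hQz]
    · simp [rel, hψ, hψC, ev_CX, hSz]
    · simp [rel, hψ, hψC, ev_X, hTz]
  have := hker hD
  rw [RingHom.mem_ker, hψC] at this
  exact this

theorem exists_generic_pt {l n d e : ℕ} (Q S0 S1 T0 T1 : Pol l) (hQ : Q.IsHomogeneous n) (hn : 0 < n)
    (hQ0 : Q ≠ 0) (hS0 : S0.IsHomogeneous d) (hS1 : S1.IsHomogeneous d) (hT0 : T0.IsHomogeneous e)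
    (hT1 : T1.IsHomogeneous e) (hS : ∀ z, eval z Q ≠ 0 → eval z S1 ≠ 0)
    (hT : ∀ z, eval z Q ≠ 0 → eval z T1 ≠ 0) (i j : Fin l)
    (hJ : (S1 * pderiv i S0 - S0 * pderiv i S1) * (T1 * pderiv j T0 - T0 * pderiv j T1) -
      (S1 * pderiv j S0 - S0 * pderiv j S1) * (T1 * pderiv i T0 - T0 * pderiv i T1) ≠ 0) :
    ∃ (L : Type) (_ : Field L) (_ : Algebra KK L) (_ : FiniteDimensional KK L) (v : Fin l → L),
      Q.eval₂ (kL L) v = 1 ∧
      S0.eval₂ (kL L) v =
        algebraMap KK L (algebraMap RR KK (Polynomial.C Polynomial.X)) * S1.eval₂ (kL L) v ∧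
      T0.eval₂ (kL L) v = algebraMap KK L (algebraMap RR KK Polynomial.X) * T1.eval₂ (kL L) v := by
  classical
  let I : Ideal (MvPolynomial (Fin l) RR) := Ideal.span (Set.range (rel Q S0 S1 T0 T1))
  let g : MvPolynomial (Fin l) RR →+* MvPolynomial (Fin l) KK := map (algebraMap RR KK)
  have hI : I.map g ≠ ⊤ := by
    intro htop
    let _ := MvPolynomial.algebraMvPolynomial (σ := Fin l) (R := RR) (S := KK)
    have hloc : IsLocalization ((nonZeroDivisors RR).map (C (σ := Fin l))) (MvPolynomial (Fin l) KK) :=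
      MvPolynomial.isLocalization (nonZeroDivisors RR) KK
    have hg : algebraMap (MvPolynomial (Fin l) RR) (MvPolynomial (Fin l) KK) = g := rfl
    have hnt := IsLocalization.map_algebraMap_ne_top_iff_disjoint ((nonZeroDivisors RR).map (C (σ := Fin l)))
      (MvPolynomial (Fin l) KK) I
    rw [hg] at hnt
    have hdis : Disjoint (((nonZeroDivisors RR).map (C (σ := Fin l)) : Submonoid _) : Set (MvPolynomial (Fin l) RR))
        (I : Set (MvPolynomial (Fin l) RR)) := by
      rw [Set.disjoint_left]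
      rintro _ ⟨D, hD, rfl⟩ hDI
      have := elim Q S0 S1 T0 T1 hQ hn hQ0 hS0 hS1 hT0 hT1 i j hJ D hDI
      exact nonZeroDivisors.ne_zero hD this
    exact (hnt.2 hdis) htop
  obtain ⟨m, hm, hle⟩ := Ideal.exists_le_maximal _ hI
  let L : Type := MvPolynomial (Fin l) KK ⧸ m
  letI : Field L := Ideal.Quotient.field m
  let v : Fin l → L := fun k => Ideal.Quotient.mk m (X k)
  have hfin : Module.Finite KK L := finite_of_finite_type_of_isJacobsonRing KK L
  have hkey : ∀ P : Pol l, Ideal.Quotient.mk m (g (map kc P)) = P.eval₂ (kL L) v := by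
    intro P
    induction P using MvPolynomial.induction_on with
    | C a => simp only [g, map_C, eval₂_C]; rfl
    | add p q hp hq => rw [map_add, map_add, map_add, hp, hq, eval₂_add]
    | mul_X p k hp =>
      rw [map_mul, map_mul, map_mul, hp, eval₂_mul, eval₂_X]
      simp only [g, map_X]
      rfl
  have hrel : ∀ k, Ideal.Quotient.mk m (g (rel Q S0 S1 T0 T1 k)) = 0 := by
    intro k
    rw [Ideal.Quotient.eq_zero_iff_mem]
    exact hle (Ideal.mem_map_of_mem _ (Ideal.subset_span ⟨k, rfl⟩))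
  have hC : ∀ r : RR, Ideal.Quotient.mk m (g (C r)) = algebraMap KK L (algebraMap RR KK r) := by
    intro r
    simp only [g, map_C]
    rfl
  refine ⟨L, inferInstance, inferInstance, hfin, v, ?_, ?_, ?_⟩
  · have h := hrel 0
    simp only [rel, Matrix.cons_val_zero, map_sub, map_one, hkey] at h
    exact sub_eq_zero.1 h
  · have h := hrel 1
    simp only [rel, Matrix.cons_val_one, Matrix.cons_val_zero, map_sub, map_mul, hkey, hC] at h
    exact sub_eq_zero.1 h
  · have h := hrel 2
    simp only [rel, Matrix.cons_val, map_sub, map_mul, hkey, hC] at h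
    exact sub_eq_zero.1 h

end MFib
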