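import Mathlib

/-!
# MP_7a61d8_gt, module T.Iso (size 150): points moving in the plane, isotopy extension

PROOF. By compactness of `[0,1]` there is `ρ > 0` with `‖p i t - p j t‖ ≥ ρ` for all `t`, `i ≠ j` (finitely many pairs, continuous positive functions), and by
uniform continuity `δ > 0` with `‖p i t - p i t'‖ < ρ / (d + 1)` if `|t - t'| ≤ δ`, all `i`. For `τ ∈ [0,1]` put
`G_τ (t, x) = x + ∑ i, max 0 (1 - ‖x - p i τ‖ / ρ) * (p i t - p i τ)`. `G_τ (τ, x) = x`. For `|t - τ| ≤ δ`: (a) `G_τ (t, p i τ) = p i t` (the other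
cutoffs vanish at `p i τ` since `‖p i τ - p j τ‖ ≥ ρ`); (b) `x ↦ G_τ (t, x)` is injective: the sum is Lipschitz in `x` with constant `≤ d * (1 / ρ) * (ρ / (d + 1)) < 1`
(`|max 0 a - max 0 b| ≤ |a - b|`). So `G_τ (t, x) = p i t` implies `x = p i τ`.
Claim `P T` (`T ∈ [0,1]`): there is a continuous `H : I × ℂ → ℂ` with `H (0, x) = x` and, for `t ≤ T`, `H (t, x) = p i t → x = p i 0`. `P 0`: `H (t, x) = x`.
`P T → P (min 1 (T + δ))`: `H' (t, x) = G_T (max t T, H (min t T, x))`: continuous; for `t ≤ T` it is `H (t, x)`; for `T ≤ t ≤ T + δ` it is `G_T (t, H (T, x))`, and if it equals `p i t`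
then `H (T, x) = p i T`, so `x = p i 0`. By induction `P (min 1 (n δ))`, hence `P 1`.
-/

set_option autoImplicit false

open unitInterval

namespace MFib

/-- the cutoff function -/
private noncomputable def ict (ρ : ℝ) (c x : ℂ) : ℝ := max 0 (1 - ‖x - c‖ / ρ)

private theorem ict_lip {ρ : ℝ} (hρ : 0 < ρ) (c x y : ℂ) : |ict ρ c x - ict ρ c y| ≤ ‖x - y‖ / ρ := by
  unfold ict
  have h1 : |max 0 (1 - ‖x - c‖ / ρ) - max 0 (1 - ‖y - c‖ / ρ)| ≤ |(1 - ‖x - c‖ / ρ) - (1 - ‖y - c‖ / ρ)| := by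
    rw [max_comm 0, max_comm 0]
    exact abs_max_sub_max_le_abs _ _ _
  refine h1.trans ?_
  have h2 : (1 - ‖x - c‖ / ρ) - (1 - ‖y - c‖ / ρ) = (‖y - c‖ - ‖x - c‖) / ρ := by ring
  rw [h2, abs_div, abs_of_pos hρ]
  gcongr
  refine (abs_norm_sub_norm_le _ _).trans (le_of_eq ?_)
  rw [norm_sub_rev x y]
  congr 1
  ring

/-- the local isotopy -/
private noncomputable def igg {d : ℕ} (ρ : ℝ) (a b : Fin d → ℂ) (x : ℂ) : ℂ := x + ∑ i, (ict ρ (a i) x : ℂ) * (b i - a i)

private theorem igg_self {d : ℕ} (ρ : ℝ) (a : Fin d → ℂ) (x : ℂ) : igg ρ a a x = x := by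
  simp [igg]

private theorem igg_at {d : ℕ} {ρ : ℝ} (hρ : 0 < ρ) {a b : Fin d → ℂ} (hs : ∀ i j, i ≠ j → ρ ≤ ‖a i - a j‖) (i : Fin d) :
    igg ρ a b (a i) = b i := by
  unfold igg
  rw [Finset.sum_eq_single i]
  · simp [ict]
  · intro j _ hj
    have h1 : ict ρ (a j) (a i) = 0 := by
      unfold ict
      apply max_eq_left
      have h2 : 1 ≤ ‖a i - a j‖ / ρ := by
        rw [one_le_div hρ]
        exact hs i j (Ne.symm hj)
      linarith
    rw [h1]
    simp
  · intro h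
    exact absurd (Finset.mem_univ i) h

private theorem igg_inj {d : ℕ} {ρ : ℝ} (hρ : 0 < ρ) {a b : Fin d → ℂ} (h : ∀ i, ‖b i - a i‖ ≤ ρ / (d + 1)) {x y : ℂ}
    (hxy : igg ρ a b x = igg ρ a b y) : x = y := by
  unfold igg at hxy
  have h1 : x - y = ∑ i, ((ict ρ (a i) y : ℂ) - (ict ρ (a i) x : ℂ)) * (b i - a i) := by
    simp only [sub_mul]
    rw [Finset.sum_sub_distrib]
    linear_combination hxy
  have hd : (0 : ℝ) < d + 1 := by positivity
  have h2 : ‖x - y‖ ≤ ∑ _i : Fin d, ‖x - y‖ / ρ * (ρ / (d + 1)) := by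
    conv_lhs => rw [h1]
    refine (norm_sum_le _ _).trans (Finset.sum_le_sum fun i _ => ?_)
    rw [norm_mul]
    have h3 : ‖((ict ρ (a i) y : ℂ) - (ict ρ (a i) x : ℂ))‖ ≤ ‖x - y‖ / ρ := by
      rw [← Complex.ofReal_sub, Complex.norm_real, Real.norm_eq_abs, norm_sub_rev x y]
      exact ict_lip hρ _ _ _
    exact mul_le_mul h3 (h i) (norm_nonneg _) (by positivity)
  have h3 : ∑ _i : Fin d, ‖x - y‖ / ρ * (ρ / (d + 1)) = ‖x - y‖ * (d / (d + 1)) := by
    rw [Finset.sum_const, Finset.card_univ, Fintype.card_fin, nsmul_eq_mul]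
    field_simp
  rw [h3] at h2
  have h4 : ‖x - y‖ * (1 / (d + 1)) ≤ 0 := by
    have h5 : (1 : ℝ) / (d + 1) = 1 - d / (d + 1) := by
      field_simp
      ring
    rw [h5, mul_sub, mul_one]
    linarith
  have h5 : (0 : ℝ) < 1 / (d + 1) := by positivity
  have h6 : ‖x - y‖ ≤ 0 := by
    by_contra hne
    push Not at hne
    have := mul_pos hne h5
    linarith
  exact sub_eq_zero.mp (norm_le_zero_iff.mp h6)

private theorem sep_exists {d : ℕ} (p : Fin d → C(I, ℂ)) (hp : ∀ t i j, i ≠ j → p i t ≠ p j t) :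
    ∃ ρ : ℝ, 0 < ρ ∧ ∀ t i j, i ≠ j → ρ ≤ ‖p i t - p j t‖ := by
  have h : ∀ q : Fin d × Fin d, ∀ᶠ ρ in nhdsWithin (0 : ℝ) (Set.Ioi 0), q.1 ≠ q.2 → ∀ t, ρ ≤ ‖p q.1 t - p q.2 t‖ := by
    rintro ⟨i, j⟩
    by_cases hij : i = j
    · exact Filter.Eventually.of_forall fun ρ h => absurd hij h
    · have hc : Continuous fun t => ‖p i t - p j t‖ := by fun_prop
      obtain ⟨t0, -, ht0⟩ := isCompact_univ.exists_isMinOn (Set.univ_nonempty (α := I)) hc.continuousOn
      have hpos : 0 < ‖p i t0 - p j t0‖ := norm_pos_iff.mpr (sub_ne_zero.mpr (hp t0 i j hij))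
      filter_upwards [Ioc_mem_nhdsGT hpos] with ρ hρ _ t
      exact hρ.2.trans (ht0 (Set.mem_univ t))
  obtain ⟨ρ, h1, h2⟩ := ((Filter.eventually_all.2 h).and self_mem_nhdsWithin).exists
  exact ⟨ρ, h2, fun t i j hij => h1 (i, j) hij t⟩

private theorem del_exists {d : ℕ} (p : Fin d → C(I, ℂ)) {ε : ℝ} (hε : 0 < ε) :
    ∃ δ : ℝ, 0 < δ ∧ ∀ (t t' : I) i, |(t : ℝ) - t'| ≤ δ → ‖p i t - p i t'‖ ≤ ε := by
  have h : ∀ i : Fin d, ∀ᶠ δ in nhdsWithin (0 : ℝ) (Set.Ioi 0), ∀ t t' : I, |(t : ℝ) - t'| ≤ δ → ‖p i t - p i t'‖ ≤ ε := by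
    intro i
    have hu : UniformContinuous (p i) := CompactSpace.uniformContinuous_of_continuous (p i).continuous
    obtain ⟨δ, hδ, h⟩ := Metric.uniformContinuous_iff.mp hu ε hε
    filter_upwards [Ioo_mem_nhdsGT hδ] with δ' hδ' t t' htt
    have h1 : dist t t' < δ := by
      rw [Subtype.dist_eq, Real.dist_eq]
      exact lt_of_le_of_lt htt hδ'.2
    have h2 := h h1
    rw [dist_eq_norm] at h2
    exact h2.le
  obtain ⟨δ, h1, h2⟩ := ((Filter.eventually_all.2 h).and self_mem_nhdsWithin).exists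
  exact ⟨δ, h2, fun t t' i => h1 i t t'⟩

theorem exists_isotopy {d : ℕ} (p : Fin d → C(I, ℂ)) (hp : ∀ t i j, i ≠ j → p i t ≠ p j t) :
    ∃ H : C(I × ℂ, ℂ), (∀ x, H (0, x) = x) ∧ ∀ t x i, H (t, x) = p i t → x = p i 0 := by
  obtain ⟨ρ, hρ, hsep⟩ := sep_exists p hp
  obtain ⟨δ, hδ, hdel⟩ := del_exists p (ε := ρ / (d + 1)) (by positivity)
  have step : ∀ n : ℕ, ∃ H : C(I × ℂ, ℂ), (∀ x, H (0, x) = x) ∧
      ∀ (t : I) x i, (t : ℝ) ≤ n * δ → H (t, x) = p i t → x = p i 0 := by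
    intro n
    induction n with
    | zero =>
      refine ⟨⟨fun q => q.2, continuous_snd⟩, fun x => rfl, fun t x i ht hx => ?_⟩
      have ht0 : t = 0 := by
        apply Subtype.ext
        have h1 := t.2.1
        have h2 : (t : ℝ) ≤ 0 := by simpa using ht
        exact le_antisymm h2 h1
      rw [ht0] at hx
      exact hx
    | succ n ih =>
      obtain ⟨H, h0, hH⟩ := ih
      by_cases hn : 1 ≤ n * δ
      · exact ⟨H, h0, fun t x i _ hx => hH t x i (t.2.2.trans hn) hx⟩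
      push Not at hn
      set τ : I := ⟨n * δ, by positivity, hn.le⟩ with hτ
      refine ⟨⟨fun q => igg ρ (fun i => p i τ) (fun i => p i (max q.1 τ)) (H (min q.1 τ, q.2)), ?_⟩, ?_, ?_⟩
      · unfold igg ict
        fun_prop
      · intro x
        have h1 : max (0 : I) τ = τ := max_eq_right (unitInterval.nonneg τ)
        have h2 : min (0 : I) τ = 0 := min_eq_left (unitInterval.nonneg τ)
        simp only [ContinuousMap.coe_mk, h1, h2, igg_self, h0]
      · intro t x i ht hx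
        simp only [ContinuousMap.coe_mk] at hx
        rcases le_total t τ with htτ | htτ
        · rw [max_eq_right htτ, min_eq_left htτ, igg_self] at hx
          exact hH t x i htτ hx
        · rw [max_eq_left htτ, min_eq_right htτ] at hx
          have h1 : igg ρ (fun i => p i τ) (fun i => p i t) (p i τ) = p i t :=
            igg_at hρ (a := fun i => p i τ) (b := fun i => p i t) (fun i j hij => hsep τ i j hij) i
          have h2 : H (τ, x) = p i τ := by
            refine igg_inj (a := fun i => p i τ) (b := fun i => p i t) hρ (fun j => hdel t τ j ?_) (hx.trans h1.symm)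
            have h3 : (τ : ℝ) ≤ t := htτ
            rw [abs_of_nonneg (by linarith)]
            have h4 : (τ : ℝ) = n * δ := rfl
            push_cast at ht
            rw [h4]
            linarith
          exact hH τ x i le_rfl h2
  obtain ⟨n, hn⟩ := exists_nat_ge (1 / δ)
  obtain ⟨H, h0, hH⟩ := step n
  refine ⟨H, h0, fun t x i hx => hH t x i ?_ hx⟩
  have h1 : 1 ≤ n * δ := by
    rwa [div_le_iff₀ hδ] at hn
  exact t.2.2.trans h1

end MFib
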