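import Pool.Agent.Lib.MFib.T.Gen

/-!
# MP_7a61d8_gt, module T.Prim (size 260): the generic point by a primitive element

PROOF. `L / KK` is finite and separable (characteristic `0`): `L = KK(θ)`; multiply `θ` by a nonzero element of `RR` to make it integral over `RR` (`exists_integral_multiple`; `L` is algebraic over `RR`). `M = minpoly RR θ`: monic, `0 < natDegree`,
`M.map (algebraMap RR KK) = minpoly KK θ` (`RR` is integrally closed: `minpoly.isIntegrallyClosed_eq_field_fractions'`). Each `v i` is a polynomial in `θ` over `KK`: with a common denominator `Δ₀ ≠ 0`: `Δ₀ v i = aeval θ (A₀ i)`, `A₀ i ∈ RR[X]`.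
`minpoly KK θ` is separable: `a M + b M' = 1` over `KK`; clear denominators: `a₀ M + b₀ M' = C Δ₁` in `RR[X]`, `Δ₁ ≠ 0`. `Δ = Δ₀ Δ₁`, `A i = C Δ₁ * A₀ i`, so `Δ v i = aeval θ (A i)`.
If `ev s x Δ ≠ 0`: the mapped identity shows that `M.map (ev s x)` is separable.
LEMMA (homogenisation). For `P ∈ Pol l` there are `N` and `P~ ∈ RR[X]` such that for every field `Ω` (`Ω : Type`) and ring hom `ψ : RR[X] → Ω` with `ψ (C Δ) ≠ 0`:
`ψ P~ = ψ (C Δ) ^ N * P.eval₂ (ψ ∘ C ∘ kc) (fun i => ψ (A i) / ψ (C Δ))`. Induction on `P` (`MvPolynomial.induction_on`): `C c`: `N = 0`; sum: `N = N₁ + N₂`, `C Δ ^ N₂ * P₁~ + C Δ ^ N₁ * P₂~`; `P * X i`: `N + 1`, `P~ * A i`.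
Apply the lemma to `ψ = aeval θ : RR[X] → L` and to `ψ = evaluation of coefficients by ev s x, X ↦ τ`. Relation `Q = 1`: for `P = Q - 1` `aeval θ P~ = 0`, so `M ∣ P~` (`minpoly.isIntegrallyClosed_dvd`), so `P~` vanishes at `τ`, `P (χ) = 0`.
Relation `S0 = s S1`: `Z = C Δ ^ N₁ * S0~ - C (C X) * C Δ ^ N₀ * S1~` (`N₀, N₁` the exponents of `S0`, `S1`) satisfies `aeval θ Z = Δ ^ (N₀ + N₁) (S0(v) - s S1(v)) = 0`, so `M ∣ Z`, and the evaluation at `τ` gives `S0(χ) = s S1(χ)`. The same for `T`.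
-/

set_option autoImplicit false

namespace MFib

open MvPolynomial

private theorem exists_theta (L : Type) [Field L] [Algebra KK L] [Algebra RR L] [IsScalarTower RR KK L]
    [FiniteDimensional KK L] :
    ∃ θ : L, IsIntegral RR θ ∧ ∀ y : L, ∃ p : Polynomial KK, Polynomial.aeval θ p = y := by
  obtain ⟨α, hα⟩ := Field.exists_primitive_element KK L
  have halg : IsAlgebraic RR α :=
    (IsFractionRing.isAlgebraic_iff RR KK L).2 (Algebra.IsAlgebraic.isAlgebraic α)
  obtain ⟨y, hy, hint⟩ := halg.exists_integral_multiple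
  refine ⟨y • α, hint, fun z => ?_⟩
  have h1 : z ∈ IntermediateField.adjoin KK {α} := by rw [hα]; trivial
  have h2 : z ∈ Algebra.adjoin KK {α} := by
    rw [← IntermediateField.adjoin_simple_toSubalgebra_of_isAlgebraic
      (Algebra.IsAlgebraic.isAlgebraic (R := KK) α)]
    exact h1
  rw [Algebra.adjoin_singleton_eq_range_aeval] at h2
  obtain ⟨p, hp⟩ := h2
  have hp' : Polynomial.aeval α p = z := hp
  have hy' : algebraMap RR KK y ≠ 0 := by
    intro h
    exact hy ((IsFractionRing.injective RR KK) (by rw [h, map_zero]))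
  refine ⟨p.comp (Polynomial.C (algebraMap RR KK y)⁻¹ * Polynomial.X), ?_⟩
  rw [Polynomial.aeval_comp]
  have h3 : Polynomial.aeval (y • α) (Polynomial.C (algebraMap RR KK y)⁻¹ * Polynomial.X : Polynomial KK) = α := by
    rw [map_mul, Polynomial.aeval_C, Polynomial.aeval_X, Algebra.smul_def,
      IsScalarTower.algebraMap_apply RR KK L, ← mul_assoc, ← map_mul, inv_mul_cancel₀ hy', map_one, one_mul]
  rw [h3, hp']

private theorem clear_den (p : Polynomial KK) :
    ∃ b : RR, b ≠ 0 ∧ ∃ P : Polynomial RR, P.map (algebraMap RR KK) = Polynomial.C (algebraMap RR KK b) * p := by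
  obtain ⟨b, hb, h⟩ := IsLocalization.integerNormalization_spec (nonZeroDivisors RR) p
  refine ⟨b, nonZeroDivisors.ne_zero hb, _, h.trans ?_⟩
  rw [← Polynomial.smul_eq_C_mul, algebraMap_smul]

private theorem homog {l : ℕ} (A : Fin l → Polynomial RR) (Δ : RR) (P : Pol l) :
    ∃ (N : ℕ) (P' : Polynomial RR), ∀ (Ω : Type) [Field Ω] (ψ : Polynomial RR →+* Ω),
      ψ (Polynomial.C Δ) ≠ 0 → ψ P' = ψ (Polynomial.C Δ) ^ N *
        P.eval₂ ((ψ.comp Polynomial.C).comp kc) (fun i => ψ (A i) / ψ (Polynomial.C Δ)) := by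
  induction P using MvPolynomial.induction_on with
  | C c => exact ⟨0, Polynomial.C (kc c), fun Ω _ ψ _ => by rw [pow_zero, one_mul, eval₂_C]; rfl⟩
  | add p q hp hq =>
    obtain ⟨N₁, P₁, h₁⟩ := hp
    obtain ⟨N₂, P₂, h₂⟩ := hq
    refine ⟨N₁ + N₂, Polynomial.C Δ ^ N₂ * P₁ + Polynomial.C Δ ^ N₁ * P₂, fun Ω _ ψ h => ?_⟩
    rw [map_add, map_mul, map_mul, map_pow, map_pow, h₁ Ω ψ h, h₂ Ω ψ h, eval₂_add]
    ring
  | mul_X p i hp =>
    obtain ⟨N₁, P₁, h₁⟩ := hp
    refine ⟨N₁ + 1, P₁ * A i, fun Ω _ ψ h => ?_⟩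
    rw [map_mul, h₁ Ω ψ h, eval₂_mul, eval₂_X]
    field_simp
    ring

private theorem transfer {l : ℕ} {L : Type} [Field L] [Algebra KK L] [Algebra RR L] [IsScalarTower RR KK L]
    {θ : L} (hθ : IsIntegral RR θ) {v : Fin l → L} {A : Fin l → Polynomial RR} {Δ : RR}
    (hv : ∀ i, algebraMap RR L Δ * v i = Polynomial.aeval θ (A i)) (P₀ P₁ : Pol l) (a : RR)
    (h : P₀.eval₂ (kL L) v = algebraMap RR L a * P₁.eval₂ (kL L) v) {s x τ : ℂ} (hsx : ev s x Δ ≠ 0)
    (hτ : ((minpoly RR θ).map (ev s x)).eval τ = 0) {χ : Fin l → ℂ}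
    (hχ : ∀ i, χ i = ((A i).map (ev s x)).eval τ / ev s x Δ) :
    eval χ P₀ = ev s x a * eval χ P₁ := by
  have hinj : Function.Injective (algebraMap RR L) := by
    rw [IsScalarTower.algebraMap_eq RR KK L]
    exact (algebraMap KK L).injective.comp (IsFractionRing.injective RR KK)
  have hΔ : Δ ≠ 0 := by
    rintro rfl
    exact hsx (map_zero _)
  have hΔL : algebraMap RR L Δ ≠ 0 := fun h0 => hΔ (hinj (by rw [h0, map_zero]))
  have : Module.IsTorsionFree RR L := by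
    rw [Module.isTorsionFree_iff_algebraMap_injective]
    exact hinj
  obtain ⟨N₀, Q₀, hQ₀⟩ := homog A Δ P₀
  obtain ⟨N₁, Q₁, hQ₁⟩ := homog A Δ P₁
  have hvi : (fun i => ((Polynomial.aeval θ : Polynomial RR →ₐ[RR] L) : Polynomial RR →+* L) (A i) /
      ((Polynomial.aeval θ : Polynomial RR →ₐ[RR] L) : Polynomial RR →+* L) (Polynomial.C Δ)) = v := by
    funext i
    rw [RingHom.coe_coe, Polynomial.aeval_C, ← hv, mul_div_cancel_left₀ _ hΔL]
  have hk : (((Polynomial.aeval θ : Polynomial RR →ₐ[RR] L) : Polynomial RR →+* L).comp Polynomial.C).comp kc =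
      kL L := by
    ext c
    show Polynomial.aeval θ (Polynomial.C (kc c)) = algebraMap KK L (algebraMap RR KK (kc c))
    rw [Polynomial.aeval_C, IsScalarTower.algebraMap_apply RR KK L]
  have hC : ((Polynomial.aeval θ : Polynomial RR →ₐ[RR] L) : Polynomial RR →+* L) (Polynomial.C Δ) ≠ 0 := by
    rw [RingHom.coe_coe, Polynomial.aeval_C]
    exact hΔL
  have e0 := hQ₀ L ((Polynomial.aeval θ : Polynomial RR →ₐ[RR] L) : Polynomial RR →+* L) hC
  have e1 := hQ₁ L ((Polynomial.aeval θ : Polynomial RR →ₐ[RR] L) : Polynomial RR →+* L) hC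
  rw [hvi, hk, RingHom.coe_coe, Polynomial.aeval_C] at e0 e1
  obtain ⟨ψ, hψ⟩ : ∃ ψ : Polynomial RR →+* ℂ, ∀ P, ψ P = (P.map (ev s x)).eval τ :=
    ⟨(Polynomial.evalRingHom τ).comp (Polynomial.mapRingHom (ev s x)), fun _ => rfl⟩
  have hψC : ∀ c, ψ (Polynomial.C c) = ev s x c := by
    intro c
    rw [hψ, Polynomial.map_C, Polynomial.eval_C]
  have hk' : (ψ.comp Polynomial.C).comp kc = RingHom.id ℂ := by
    ext c
    show ψ (Polynomial.C (kc c)) = c
    rw [hψC, ev_kc]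
  have hχ' : (fun i => ψ (A i) / ψ (Polynomial.C Δ)) = χ := by
    funext i
    rw [hψC, hψ, hχ]
  have hC' : ψ (Polynomial.C Δ) ≠ 0 := by
    rw [hψC]
    exact hsx
  have f0 := hQ₀ ℂ ψ hC'
  have f1 := hQ₁ ℂ ψ hC'
  rw [hχ', hk', hψC] at f0 f1
  have g0 : P₀.eval₂ (RingHom.id ℂ) χ = eval χ P₀ := rfl
  have g1 : P₁.eval₂ (RingHom.id ℂ) χ = eval χ P₁ := rfl
  rw [g0] at f0
  rw [g1] at f1
  have hZ : Polynomial.aeval θ (Polynomial.C Δ ^ N₁ * Q₀ + Polynomial.C (-a) * Polynomial.C Δ ^ N₀ * Q₁) = 0 := by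
    rw [map_add, map_mul, map_mul, map_mul, map_pow, map_pow, Polynomial.aeval_C, Polynomial.aeval_C, e0, e1, h,
      map_neg]
    ring
  obtain ⟨W, hW⟩ := minpoly.isIntegrallyClosed_dvd hθ hZ
  have hZ' := congrArg ψ hW
  rw [map_mul, hψ (minpoly RR θ), hτ, zero_mul, map_add, map_mul, map_mul, map_mul, map_pow, map_pow, hψC, hψC,
    f0, f1, map_neg] at hZ'
  have h5 : ev s x Δ ^ (N₀ + N₁) ≠ 0 := pow_ne_zero _ hsx
  have h6 : ev s x Δ ^ (N₀ + N₁) * (eval χ P₀ - ev s x a * eval χ P₁) = 0 := by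
    rw [pow_add]
    linear_combination hZ'
  exact sub_eq_zero.1 ((mul_eq_zero.1 h6).resolve_left h5)

private theorem exists_sep {L : Type} [Field L] [Algebra KK L] [Algebra RR L] [IsScalarTower RR KK L]
    [FiniteDimensional KK L] {θ : L} (hθ : IsIntegral RR θ) :
    ∃ Δ₁ : RR, Δ₁ ≠ 0 ∧ ∀ s x, ev s x Δ₁ ≠ 0 → ((minpoly RR θ).map (ev s x)).Separable := by
  have h1 : minpoly KK θ = (minpoly RR θ).map (algebraMap RR KK) :=
    minpoly.isIntegrallyClosed_eq_field_fractions' KK hθ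
  have h2 : (minpoly KK θ).Separable := Algebra.IsSeparable.isSeparable KK θ
  rw [h1] at h2
  obtain ⟨a, b, hab⟩ := h2
  obtain ⟨α, hα, a₀, ha₀⟩ := clear_den a
  obtain ⟨β, hβ, b₀, hb₀⟩ := clear_den b
  have h3 : Polynomial.C β * a₀ * minpoly RR θ + Polynomial.C α * b₀ * Polynomial.derivative (minpoly RR θ) =
      Polynomial.C (α * β) := by
    apply Polynomial.map_injective (algebraMap RR KK) (IsFractionRing.injective RR KK)
    rw [Polynomial.map_add, Polynomial.map_mul, Polynomial.map_mul, Polynomial.map_mul, Polynomial.map_mul,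
      Polynomial.map_C, Polynomial.map_C, Polynomial.map_C, ha₀, hb₀, ← Polynomial.derivative_map, map_mul,
      Polynomial.C_mul]
    linear_combination (Polynomial.C (algebraMap RR KK α) * Polynomial.C (algebraMap RR KK β)) * hab
  refine ⟨α * β, mul_ne_zero hα hβ, fun s x hsx => ?_⟩
  have h4 := congrArg (Polynomial.map (ev s x)) h3
  rw [Polynomial.map_add, Polynomial.map_mul, Polynomial.map_mul (ev s x) (p := Polynomial.C α * b₀), ← Polynomial.derivative_map,
    Polynomial.map_C] at h4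
  refine ⟨Polynomial.C (ev s x (α * β))⁻¹ * (Polynomial.C β * a₀).map (ev s x),
    Polynomial.C (ev s x (α * β))⁻¹ * (Polynomial.C α * b₀).map (ev s x), ?_⟩
  rw [mul_assoc, mul_assoc, ← mul_add, h4, ← Polynomial.C_mul, inv_mul_cancel₀ hsx, Polynomial.C_1]

theorem exists_prim {l : ℕ} (Q S0 S1 T0 T1 : Pol l) (L : Type) [Field L] [Algebra KK L]
    [FiniteDimensional KK L] (v : Fin l → L) (h1 : Q.eval₂ (kL L) v = 1)
    (h2 : S0.eval₂ (kL L) v =
      algebraMap KK L (algebraMap RR KK (Polynomial.C Polynomial.X)) * S1.eval₂ (kL L) v)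
    (h3 : T0.eval₂ (kL L) v = algebraMap KK L (algebraMap RR KK Polynomial.X) * T1.eval₂ (kL L) v) :
    ∃ (M : Polynomial RR) (A : Fin l → Polynomial RR) (Δ : RR), M.Monic ∧ 0 < M.natDegree ∧ Δ ≠ 0 ∧
      ∀ s x : ℂ, ev s x Δ ≠ 0 → (M.map (ev s x)).Separable ∧
        ∀ (τ : ℂ), (M.map (ev s x)).eval τ = 0 → ∀ (χ : Fin l → ℂ),
          (∀ i, χ i = ((A i).map (ev s x)).eval τ / ev s x Δ) →
          eval χ Q = 1 ∧ eval χ S0 = s * eval χ S1 ∧ eval χ T0 = x * eval χ T1 := by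
  classical
  let _ : Algebra RR L := ((algebraMap KK L).comp (algebraMap RR KK)).toAlgebra
  have : IsScalarTower RR KK L := by
    refine ⟨fun a b c => ?_⟩
    have h1 : a • b = algebraMap RR KK a * b := by
      rw [← algebraMap_smul KK a b, smul_eq_mul]
    have h2 : a • b • c = algebraMap KK L (algebraMap RR KK a) * (b • c) := Algebra.smul_def a (b • c)
    rw [h1, h2, mul_smul, Algebra.smul_def (algebraMap RR KK a)]
  obtain ⟨θ, hθ, hθ'⟩ := exists_theta L
  obtain ⟨Δ₁, hΔ₁, hsep⟩ := exists_sep hθ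
  choose p hp using fun i => hθ' (v i)
  choose b hb P hP using fun i => clear_den (p i)
  have hPv : ∀ i, Polynomial.aeval θ (P i) = algebraMap RR L (b i) * v i := by
    intro i
    rw [← Polynomial.aeval_map_algebraMap KK, hP, map_mul, Polynomial.aeval_C, hp,
      ← IsScalarTower.algebraMap_apply RR KK L]
  have hv : ∀ i, algebraMap RR L (Δ₁ * ∏ j, b j) * v i =
      Polynomial.aeval θ (Polynomial.C (Δ₁ * ∏ j ∈ Finset.univ.erase i, b j) * P i) := by
    intro i
    rw [map_mul (Polynomial.aeval θ), Polynomial.aeval_C, hPv, ← Finset.prod_erase_mul _ _ (Finset.mem_univ i), ← mul_assoc,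
      ← mul_assoc, map_mul]
  refine ⟨minpoly RR θ, fun i => Polynomial.C (Δ₁ * ∏ j ∈ Finset.univ.erase i, b j) * P i, Δ₁ * ∏ j, b j,
    minpoly.monic hθ, minpoly.natDegree_pos hθ, mul_ne_zero hΔ₁ (Finset.prod_ne_zero_iff.2 fun j _ => hb j),
    fun s x hsx => ⟨hsep s x ?_, fun τ hτ χ hχ => ⟨?_, ?_, ?_⟩⟩⟩
  · intro h0
    apply hsx
    rw [map_mul, h0, zero_mul]
  · have := transfer hθ hv Q 1 1 (by rw [h1, map_one, eval₂_one, one_mul]) hsx hτ hχ
    rw [this, map_one, map_one, one_mul]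
  · have := transfer hθ hv S0 S1 (Polynomial.C Polynomial.X) h2 hsx hτ hχ
    rw [this, ev_CX]
  · have := transfer hθ hv T0 T1 Polynomial.X h3 hsx hτ hχ
    rw [this, ev_X]

end MFib
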