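import Pool.Agent.Lib.MFib.T.Defs
import Pool.Agent.Lib.MP_0162a5_an.Roots
import Pool.Agent.Lib.MP_0162a5_an.Cov

/-!
# MP_7a61d8_gt, module T.RootCov (size 200): roots of a family of separable polynomials form a finite covering

PROOF. Let `f : E → B`, `E = {(b, z) | b ∈ B, P_b(z) = 0}`. For `b ∈ B` there is a closed ball `A ⊆ B` around `b` (`B` is open in `ℂ × ℂ`), compact and convex. `Lib/MP_0162a5_an/Roots.lean`: `near_roots`, `loc_unique` (local
uniqueness of the root near a root), `root_branch` (continuous root through a given root over a compact convex set), and `root_cov` (covering over a compact set). (1) `f` is a local homeomorphism: it is continuous,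
open (`near_roots`: roots persist) and locally injective (`loc_unique`) (compare the proof of `root_cov`); or: near `(b, z)` the branch `g` through `z` over an open ball `N` gives the inverse: for `(y, w)` near `(b, z)`
`w = g y` by `loc_unique`. (2) For `N` = an open ball inside `A` and `e` over `N`, `root_branch` gives a continuous section over `A ⊇ N` through `e`: `isCovering_of_sections` (Cov.lean) applies (`E` is Hausdorff, balls are preconnected).
Fibres: the roots of `P_b`, a finite set, nonempty if the degree is positive.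
-/

set_option autoImplicit false

namespace MFib

/-- the root space of the family `P` over `B` -/
abbrev Roots (B : Set (ℂ × ℂ)) (P : ℂ × ℂ → Polynomial ℂ) : Type :=
  {w : (ℂ × ℂ) × ℂ // w.1 ∈ B ∧ (P w.1).eval w.2 = 0}

/-- the projection -/
def rootsProj (B : Set (ℂ × ℂ)) (P : ℂ × ℂ → Polynomial ℂ) : C(Roots B P, B) where
  toFun w := ⟨w.1.1, w.2.1⟩
  continuous_toFun := by fun_prop

open Metric Set Topology Filter in
private theorem rootsProj_lh {B : Set (ℂ × ℂ)} (P : ℂ × ℂ → Polynomial ℂ) {n : ℕ}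
    (hc : ∀ k, ContinuousOn (fun b => (P b).coeff k) B) (hm : ∀ b ∈ B, (P b).Monic)
    (hn : ∀ b ∈ B, (P b).natDegree = n) (hs : ∀ b ∈ B, (P b).Separable) :
    IsLocalHomeomorph (rootsProj B P) := by
  rw [isLocalHomeomorph_iff_isOpenEmbedding_restrict]
  have hcont : Continuous (rootsProj B P) := (rootsProj B P).continuous
  have hopen : IsOpenMap (rootsProj B P) := by
    rw [isOpenMap_iff_nhds_le]
    rintro ⟨⟨x, z⟩, hx, hz⟩ S hS
    rw [Filter.mem_map, Metric.mem_nhds_iff] at hS
    obtain ⟨ε, hε, hS⟩ := hS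
    have h1 := Pool.Agent.T05.near_roots hc hm hn hx hz hε
    have h2 : ∀ᶠ y in 𝓝[B] x, dist y x < ε :=
      nhdsWithin_le_nhds (Metric.ball_mem_nhds x hε)
    have h3 : ∀ᶠ y : B in 𝓝 (⟨x, hx⟩ : B), (∃ w, (P y).eval w = 0 ∧ ‖w - z‖ < ε) ∧
        dist (y : ℂ × ℂ) x < ε := by
      rw [nhds_subtype_eq_comap_nhdsWithin]
      exact (h1.and h2).comap _
    have h4 : rootsProj B P ⟨(x, z), hx, hz⟩ = ⟨x, hx⟩ := rfl
    rw [h4]
    filter_upwards [h3] with y hy
    obtain ⟨⟨w, hw, hwz⟩, hyx⟩ := hy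
    have : (⟨(y, w), y.2, hw⟩ : Roots B P) ∈ ball (⟨(x, z), hx, hz⟩ : Roots B P) ε := by
      rw [mem_ball, Subtype.dist_eq, Prod.dist_eq]
      exact max_lt hyx (by rw [dist_eq_norm]; exact hwz)
    exact hS this
  rintro ⟨⟨x, z⟩, hx, hz⟩
  obtain ⟨δ, hδ, hu⟩ := Pool.Agent.T05.loc_unique hc hm hn hs hx hz
  have hu' : ∀ᶠ y : B in 𝓝 (⟨x, hx⟩ : B), ∀ w w', (P y).eval w = 0 → (P y).eval w' = 0 →
      ‖w - z‖ < δ → ‖w' - z‖ < δ → w = w' := by
    rw [nhds_subtype_eq_comap_nhdsWithin]
    exact hu.comap _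
  obtain ⟨N, hN, hNo, hxN⟩ := _root_.eventually_nhds_iff.1 hu'
  let U : Set (Roots B P) := {w | rootsProj B P w ∈ N ∧ ‖w.1.2 - z‖ < δ}
  have hUo : IsOpen U := by
    apply IsOpen.inter
    · exact hNo.preimage hcont
    · have hcc : Continuous (fun w : Roots B P => ‖w.1.2 - z‖) :=
        ((continuous_snd.comp continuous_subtype_val).sub continuous_const).norm
      exact isOpen_lt hcc continuous_const
  refine ⟨U, hUo.mem_nhds ⟨hxN, by simpa using hδ⟩, ?_⟩
  apply IsOpenEmbedding.of_continuous_injective_isOpenMap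
  · exact hcont.comp continuous_subtype_val
  · rintro ⟨⟨⟨a, b⟩, ha, hb⟩, h1, h2⟩ ⟨⟨⟨a', b'⟩, ha', hb'⟩, h1', h2'⟩ h
    have haa : a = a' := congrArg Subtype.val h
    subst haa
    have hbb : b = b' := hN ⟨a, ha⟩ h1 b b' hb hb' h2 h2'
    subst hbb
    rfl
  · exact hopen.comp hUo.isOpenMap_subtype_val

theorem rootsProj_covering {B : Set (ℂ × ℂ)} (hB : IsOpen B) (P : ℂ × ℂ → Polynomial ℂ) {n : ℕ}
    (hc : ∀ k, ContinuousOn (fun b => (P b).coeff k) B) (hm : ∀ b ∈ B, (P b).Monic)
    (hn : ∀ b ∈ B, (P b).natDegree = n) (hs : ∀ b ∈ B, (P b).Separable) :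
    IsCoveringMap (rootsProj B P) := by
  classical
  apply Pool.Agent.T05.isCovering_of_sections (rootsProj_lh P hc hm hn hs)
  rintro ⟨b, hb⟩
  obtain ⟨r, hr, hrB⟩ := Metric.nhds_basis_closedBall.mem_iff.mp (hB.mem_nhds hb)
  have hballB : Metric.ball b r ⊆ B := Metric.ball_subset_closedBall.trans hrB
  have himg : (Subtype.val : B → ℂ × ℂ) '' (Subtype.val ⁻¹' Metric.ball b r) = Metric.ball b r := by
    rw [Subtype.image_preimage_coe]
    exact Set.inter_eq_right.mpr hballB
  refine ⟨Subtype.val ⁻¹' Metric.ball b r, Metric.isOpen_ball.preimage continuous_subtype_val, ?_,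
    Metric.mem_ball_self hr, ?_⟩
  · rw [← Topology.IsInducing.subtypeVal.isPreconnected_image, himg]
    exact (convex_ball b r).isPreconnected
  · rintro ⟨⟨x, z⟩, hx, hz⟩ he
    have hxA : x ∈ Metric.closedBall b r := Metric.ball_subset_closedBall he
    obtain ⟨g, hg, hg0, hg1⟩ := Pool.Agent.T05.root_branch (isCompact_closedBall b r)
      (convex_closedBall b r) (fun k => (hc k).mono hrB) (fun y hy => hm y (hrB hy))
      (fun y hy => hn y (hrB hy)) (fun y hy => hs y (hrB hy)) hxA hz
    refine ⟨fun y => if hy : (y : ℂ × ℂ) ∈ Metric.closedBall b r then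
      ⟨((y : ℂ × ℂ), g y), y.2, hg1 y hy⟩ else ⟨(x, z), hx, hz⟩, ?_, ?_, ?_⟩
    · have hind : Topology.IsInducing (Subtype.val : Roots B P → (ℂ × ℂ) × ℂ) :=
        Topology.IsInducing.subtypeVal
      refine hind.continuousOn_iff.mpr ?_
      have h1 : ContinuousOn (fun y : B => ((y : ℂ × ℂ), g y))
          (Subtype.val ⁻¹' Metric.ball b r) := by
        refine ContinuousOn.prodMk continuous_subtype_val.continuousOn ?_
        exact hg.comp continuous_subtype_val.continuousOn
          fun y hy => Metric.ball_subset_closedBall hy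
      refine h1.congr fun y hy => ?_
      have hy' : (y : ℂ × ℂ) ∈ Metric.closedBall b r := Metric.ball_subset_closedBall hy
      simp only [Function.comp_apply]
      rw [dif_pos hy']
    · have h1 : rootsProj B P ⟨(x, z), hx, hz⟩ = ⟨x, hx⟩ := rfl
      rw [h1]
      simp only
      rw [dif_pos hxA]
      exact Subtype.ext (Prod.ext rfl hg0)
    · intro y hy
      have hy' : (y : ℂ × ℂ) ∈ Metric.closedBall b r := Metric.ball_subset_closedBall hy
      simp only
      rw [dif_pos hy']
      rfl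

theorem rootsProj_finite {B : Set (ℂ × ℂ)} (P : ℂ × ℂ → Polynomial ℂ) (hm : ∀ b ∈ B, (P b).Monic)
    (b : B) : Finite (rootsProj B P ⁻¹' {b}) := by
  classical
  have hmem : ∀ e : rootsProj B P ⁻¹' {b}, e.1.1.2 ∈ (P b).roots.toFinset := by
    intro e
    have h1 : rootsProj B P e.1 = b := e.2
    have h2 : e.1.1.1 = (b : ℂ × ℂ) := congrArg Subtype.val h1
    rw [Multiset.mem_toFinset, Polynomial.mem_roots (hm b b.2).ne_zero, Polynomial.IsRoot.def,
      ← h2]
    exact e.1.2.2
  refine Finite.of_injective (β := (P b).roots.toFinset) (fun e => ⟨e.1.1.2, hmem e⟩) ?_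
  intro e e' h
  have h1 : rootsProj B P e.1 = b := e.2
  have h2 : rootsProj B P e'.1 = b := e'.2
  have h3 : e.1.1.1 = e'.1.1.1 := congrArg Subtype.val (h1.trans h2.symm)
  have h4 : e.1.1.2 = e'.1.1.2 := congrArg Subtype.val h
  exact Subtype.ext (Subtype.ext (Prod.ext h3 h4))

theorem rootsProj_surjective {B : Set (ℂ × ℂ)} (P : ℂ × ℂ → Polynomial ℂ)
    (hn : ∀ b ∈ B, 0 < (P b).natDegree) : Function.Surjective (rootsProj B P) := by
  rintro ⟨b, hb⟩
  obtain ⟨z, hz⟩ := IsAlgClosed.exists_root (P b)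
    (Polynomial.natDegree_pos_iff_degree_pos.mp (hn b hb)).ne'
  exact ⟨⟨(b, z), hb, hz⟩, rfl⟩

end MFib
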