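import Pool.Agent.Lib.MFib.T.Prim
import Pool.Agent.Lib.MFib.T.Dsc
import Pool.Agent.Lib.MFib.T.RootCov

/-!
# MP_7a61d8_gt, module T.Tower (size 200): a finite covering of an open set of the `(Y, Y')`-plane with a map to the Milnor fibre

PROOF. `S0 = P.S 0`, `S1 = P.S 1`, `T0 = P'.S 0`, `T1 = P'.S 1`; `S1(z) ≠ 0` if `Q(z) ≠ 0` (from `prod` and `h_ne`; the same for `T1`). `exists_generic`, `exists_prim` give `M, A, Δ`; `exists_discr Δ {0, -1}` gives `T, d, q`.
On `B = Bq T q`: `ev s x Δ ≠ 0`. `P_b = M.map (ev b.1 b.2)`: monic of degree `M.natDegree > 0`, separable; its coefficients `ev b.1 b.2 (M.coeff k)` are continuous in `b` (`ev s x D` is a polynomial function: induction on `D`).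
`B` is open: `T` is finite, hence closed, and `(s, x) ↦ (q s).eval x = ∑ k ≤ d, (q s).coeff k * x ^ k` is continuous on `Tᶜ × ℂ`. `E = Roots B P_b`, `p = rootsProj`, covering, finite, surjective by `RootCov`.
`χ w = (fun i => ((A i).map (ev s x)).eval τ / ev s x Δ)` for `w = ((s, x), τ)`: continuous, with values in `Fib Q`; `P.Y (χ w) = S0 / S1 = s`, because `S1(χ w) ≠ 0`.
-/

set_option autoImplicit false

namespace MFib

open MvPolynomial

private theorem ev_cont (D : RR) : Continuous fun b : ℂ × ℂ => ev b.1 b.2 D := by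
  induction D using Polynomial.induction_on' with
  | add p q hp hq =>
    simp only [map_add]
    exact hp.add hq
  | monomial n a =>
    have h1 : (fun b : ℂ × ℂ => ev b.1 b.2 (Polynomial.monomial n a)) =
        fun b => a.eval b.1 * b.2 ^ n := by
      funext b
      rw [ev_apply, Polynomial.map_monomial, Polynomial.eval_monomial, Polynomial.coe_evalRingHom]
    rw [h1]
    exact (a.continuous.comp continuous_fst).mul (continuous_snd.pow n)

private theorem ev_cont2 (A : Polynomial RR) :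
    Continuous fun w : (ℂ × ℂ) × ℂ => (A.map (ev w.1.1 w.1.2)).eval w.2 := by
  induction A using Polynomial.induction_on' with
  | add p q hp hq =>
    simp only [Polynomial.map_add, Polynomial.eval_add]
    exact hp.add hq
  | monomial n a =>
    simp only [Polynomial.map_monomial, Polynomial.eval_monomial]
    exact ((ev_cont a).comp continuous_fst).mul (continuous_snd.pow n)

private theorem S1_ne' {l : ℕ} {Q : Pol l} (P : Pencil Q) (z : Fin l → ℂ) (hz : eval z Q ≠ 0) :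
    eval z (P.S 1) ≠ 0 := by
  intro h0
  have h1 := congrArg (MvPolynomial.eval z) P.prod
  rw [map_mul, map_mul, map_mul, map_pow, h0] at h1
  have h2 := P.h_ne z hz
  rw [mul_zero, zero_mul] at h1
  exact mul_ne_zero (pow_ne_zero 3 h2) hz h1.symm

private theorem Bq_open {T : Set ℂ} {d : ℕ} {q : ℂ → Polynomial ℂ} (hq : GoodFam T d q) :
    IsOpen (Bq T q) := by
  have h1 : ContinuousOn (fun b : ℂ × ℂ => (q b.1).eval b.2) (Tᶜ ×ˢ Set.univ) := by
    have h2 : ∀ b ∈ Tᶜ ×ˢ (Set.univ : Set ℂ), (fun b : ℂ × ℂ => (q b.1).eval b.2) b =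
        ∑ k ∈ Finset.range (d + 1), (q b.1).coeff k * b.2 ^ k := by
      intro b hb
      exact Polynomial.eval_eq_sum_range' (by rw [hq.deg _ hb.1]; omega) _
    refine ContinuousOn.congr ?_ h2
    refine continuousOn_finsetSum _ fun k _ => ?_
    refine ContinuousOn.mul ?_ (by fun_prop)
    exact (hq.cont k).comp continuousOn_fst fun w hw => hw.1
  have h3 : IsOpen (Tᶜ ×ˢ (Set.univ : Set ℂ)) := hq.fin.isClosed.isOpen_compl.prod isOpen_univ
  have h4 := h1.isOpen_inter_preimage h3 (isOpen_compl_singleton (x := (0 : ℂ)))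
  convert h4 using 1
  ext b
  simp [Bq]

theorem exists_tower {l n : ℕ} {Q : Pol l} (hQ : Q.IsHomogeneous n) (hn : 0 < n) (hQ0 : Q ≠ 0)
    (P P' : Pencil Q) (hPP : Indep P P') :
    ∃ (T : Set ℂ) (d : ℕ) (q : ℂ → Polynomial ℂ) (E : Type) (_ : TopologicalSpace E)
      (p : C(E, Bq T q)) (χ : C(E, Fib Q)), GoodFam T d q ∧ IsCoveringMap p ∧
      (∀ b, Finite (p ⁻¹' {b})) ∧ Function.Surjective p ∧
      ∀ w, P.Y (χ w).1 = (p w).1.1 ∧ P'.Y (χ w).1 = (p w).1.2 := by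
  obtain ⟨i, j, hJ⟩ := hPP
  obtain ⟨L, _, _, _, v, h1, h2, h3⟩ := exists_generic_pt Q (P.S 0) (P.S 1) (P'.S 0) (P'.S 1) hQ hn
    hQ0 (P.S_hom 0) (P.S_hom 1) (P'.S_hom 0) (P'.S_hom 1) (S1_ne' P) (S1_ne' P') i j hJ
  obtain ⟨M, A, Δ, hM, hMd, hΔ, hM2⟩ := exists_prim Q (P.S 0) (P.S 1) (P'.S 0) (P'.S 1) L v h1 h2 h3
  obtain ⟨T, d, q, -, hq, hqΔ⟩ := exists_discr Δ hΔ ∅ Set.finite_empty
  have hΔB : ∀ b ∈ Bq T q, ev b.1 b.2 Δ ≠ 0 := fun b hb h => hb.2 (hqΔ b.1 hb.1 b.2 h)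
  set PM : ℂ × ℂ → Polynomial ℂ := fun b => M.map (ev b.1 b.2) with hPM
  have hc : ∀ k, ContinuousOn (fun b => (PM b).coeff k) (Bq T q) := by
    intro k
    simp only [hPM, Polynomial.coeff_map]
    exact (ev_cont _).continuousOn
  have hm : ∀ b ∈ Bq T q, (PM b).Monic := fun b _ => hM.map _
  have hdeg : ∀ b ∈ Bq T q, (PM b).natDegree = M.natDegree := fun b _ => hM.natDegree_map _
  have hs : ∀ b ∈ Bq T q, (PM b).Separable := fun b hb => (hM2 b.1 b.2 (hΔB b hb)).1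
  have hχ : ∀ w : Roots (Bq T q) PM,
      eval (fun i => ((A i).map (ev w.1.1.1 w.1.1.2)).eval w.1.2 / ev w.1.1.1 w.1.1.2 Δ) Q = 1 ∧
      eval (fun i => ((A i).map (ev w.1.1.1 w.1.1.2)).eval w.1.2 / ev w.1.1.1 w.1.1.2 Δ) (P.S 0) =
        w.1.1.1 * eval (fun i => ((A i).map (ev w.1.1.1 w.1.1.2)).eval w.1.2 /
          ev w.1.1.1 w.1.1.2 Δ) (P.S 1) ∧
      eval (fun i => ((A i).map (ev w.1.1.1 w.1.1.2)).eval w.1.2 / ev w.1.1.1 w.1.1.2 Δ) (P'.S 0) =
        w.1.1.2 * eval (fun i => ((A i).map (ev w.1.1.1 w.1.1.2)).eval w.1.2 /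
          ev w.1.1.1 w.1.1.2 Δ) (P'.S 1) := fun w =>
    (hM2 w.1.1.1 w.1.1.2 (hΔB _ w.2.1)).2 w.1.2 w.2.2 _ fun i => rfl
  refine ⟨T, d, q, Roots (Bq T q) PM, inferInstance, rootsProj (Bq T q) PM,
    ⟨fun w => ⟨fun i => ((A i).map (ev w.1.1.1 w.1.1.2)).eval w.1.2 / ev w.1.1.1 w.1.1.2 Δ,
      (hχ w).1⟩, ?_⟩, hq, rootsProj_covering (Bq_open hq) PM hc hm hdeg hs,
    rootsProj_finite PM hm, rootsProj_surjective PM fun b hb => by rw [hdeg b hb]; exact hMd, ?_⟩
  · refine Continuous.subtype_mk (continuous_pi fun i => ?_) _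
    refine Continuous.div ?_ ?_ fun w => hΔB _ w.2.1
    · exact (ev_cont2 (A i)).comp continuous_subtype_val
    · exact (ev_cont Δ).comp (continuous_fst.comp continuous_subtype_val)
  · intro w
    have hQ1 : ∀ R : Pencil Q, eval (fun i => ((A i).map (ev w.1.1.1 w.1.1.2)).eval w.1.2 /
        ev w.1.1.1 w.1.1.2 Δ) (R.S 1) ≠ 0 := fun R => S1_ne' R _ (by
      rw [(hχ w).1]
      exact one_ne_zero)
    constructor
    · exact (div_eq_iff (hQ1 P)).2 (hχ w).2.1
    · exact (div_eq_iff (hQ1 P')).2 (hχ w).2.2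

end MFib
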